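import Mathlib

/-!
# Syzygies of three elements of a domain: the formal part
-/

set_option autoImplicit false
set_option linter.unusedVariables false

namespace Pool.Agent.Q64.POG.Alg

variable {R : Type*} [CommRing R] [IsDomain R]

/-- If `u` and `v` are orthogonal to `P` then `u × v` is a multiple of `P`. -/
lemma cross_eq {P1 P2 P3 : R} (h0 : P1 ≠ 0) (hc : ∀ g, P1 ∣ P2 * g → P1 ∣ g)
    {u1 u2 u3 v1 v2 v3 : R} (hu : u1 * P1 + u2 * P2 + u3 * P3 = 0)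
    (hv : v1 * P1 + v2 * P2 + v3 * P3 = 0) :
    ∃ h, u2 * v3 - u3 * v2 = h * P1 ∧ u3 * v1 - u1 * v3 = h * P2 ∧ u1 * v2 - u2 * v1 = h * P3 := by
  obtain ⟨h, hh⟩ := hc (u2 * v3 - u3 * v2) ⟨u3 * v1 - u1 * v3, by
    linear_combination v3 * hu - u3 * hv⟩
  refine ⟨h, by rw [hh]; ring, ?_, ?_⟩
  · apply mul_left_cancel₀ h0
    linear_combination (-v3) * hu + u3 * hv + P2 * hh
  · apply mul_left_cancel₀ h0
    linear_combination (v2) * hu - u2 * hv + P3 * hh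

/-- The first case: three generators `n₁, n₂, n₃` with one relation `q₁ n₁ + q₂ n₂ + q₃ n₃ = 0`. -/
lemma generate_three {P1 P2 P3 : R} (h0 : P1 ≠ 0) (hc : ∀ g, P1 ∣ P2 * g → P1 ∣ g)
    {k q1 q2 q3 : R} (hk : IsUnit k) (hq1 : q1 ≠ 0) (hq3 : q3 ≠ 0)
    (hq : ∀ g, q1 ∣ q2 * g → q1 ∣ g)
    (hq' : ∀ h1 h2 h3, q1 * h1 + q2 * h2 + q3 * h3 = 0 → ∃ a b, h3 = q1 * a + q2 * b)
    {a1 a2 a3 b1 b2 b3 c1 c2 c3 : R}
    (ha : a1 * P1 + a2 * P2 + a3 * P3 = 0) (hb : b1 * P1 + b2 * P2 + b3 * P3 = 0)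
    (hc' : c1 * P1 + c2 * P2 + c3 * P3 = 0)
    (bc1 : b2 * c3 - b3 * c2 = k * q1 * P1) (bc2 : b3 * c1 - b1 * c3 = k * q1 * P2)
    (bc3 : b1 * c2 - b2 * c1 = k * q1 * P3)
    (ca1 : c2 * a3 - c3 * a2 = k * q2 * P1) (ca2 : c3 * a1 - c1 * a3 = k * q2 * P2)
    (ca3 : c1 * a2 - c2 * a1 = k * q2 * P3)
    (ab1 : a2 * b3 - a3 * b2 = k * q3 * P1) (ab2 : a3 * b1 - a1 * b3 = k * q3 * P2)
    (ab3 : a1 * b2 - a2 * b1 = k * q3 * P3)
    (r1 : q1 * a1 + q2 * b1 + q3 * c1 = 0) (r2 : q1 * a2 + q2 * b2 + q3 * c2 = 0)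
    (r3 : q1 * a3 + q2 * b3 + q3 * c3 = 0)
    {u1 u2 u3 : R} (hu : u1 * P1 + u2 * P2 + u3 * P3 = 0) :
    ∃ x y z, u1 = x * a1 + y * b1 + z * c1 ∧ u2 = x * a2 + y * b2 + z * c2 ∧
      u3 = x * a3 + y * b3 + z * c3 := by
  obtain ⟨ku, rfl⟩ := hk
  set k : R := (ku : R)
  set k' : R := ((ku⁻¹ : Rˣ) : R)
  have hkk : k * k' = 1 := ku.mul_inv
  obtain ⟨h1, e11, e12, e13⟩ := cross_eq h0 hc hu ha
  obtain ⟨h2, e21, e22, e23⟩ := cross_eq h0 hc hu hb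
  obtain ⟨h3, e31, e32, e33⟩ := cross_eq h0 hc hu hc'
  have hsum : q1 * h1 + q2 * h2 + q3 * h3 = 0 := by
    apply mul_left_cancel₀ h0
    linear_combination (-q1) * e11 - q2 * e21 - q3 * e31 + u2 * r3 - u3 * r2
  obtain ⟨s, t, hst⟩ := hq' h1 h2 h3 hsum
  -- `h3 = k (q1 y - q2 x)`
  let y := k' * s
  let x := -(k' * t)
  have h3e : h3 = k * (q1 * y - q2 * x) := by
    simp only [x, y]
    linear_combination hst - (q1 * s + q2 * t) * hkk
  have hd : q1 ∣ q2 * (h2 - k * q3 * x) := ⟨-(h1 + k * q3 * y), by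
    linear_combination hsum - q3 * h3e⟩
  obtain ⟨m, hm⟩ := hq _ hd
  let z := -(k' * m)
  have h2e : h2 = k * (q3 * x - q1 * z) := by
    simp only [z]
    linear_combination hm - (q1 * m) * hkk
  have h1e : h1 = k * (q2 * z - q3 * y) := by
    apply mul_left_cancel₀ hq1
    linear_combination hsum - q2 * h2e - q3 * h3e
  -- the difference
  let d1 := u1 - (x * a1 + y * b1 + z * c1)
  let d2 := u2 - (x * a2 + y * b2 + z * c2)
  let d3 := u3 - (x * a3 + y * b3 + z * c3)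
  -- `d × a = 0`, `d × b = 0`
  have da1 : d2 * a3 - d3 * a2 = 0 := by
    simp only [d2, d3]
    linear_combination e11 + P1 * h1e + y * ab1 - z * ca1
  have da2 : d3 * a1 - d1 * a3 = 0 := by
    simp only [d1, d3]
    linear_combination e12 + P2 * h1e + y * ab2 - z * ca2
  have da3 : d1 * a2 - d2 * a1 = 0 := by
    simp only [d1, d2]
    linear_combination e13 + P3 * h1e + y * ab3 - z * ca3
  have db1 : d2 * b3 - d3 * b2 = 0 := by
    simp only [d2, d3]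
    linear_combination e21 + P1 * h2e - x * ab1 + z * bc1
  have db2 : d3 * b1 - d1 * b3 = 0 := by
    simp only [d1, d3]
    linear_combination e22 + P2 * h2e - x * ab2 + z * bc2
  have db3 : d1 * b2 - d2 * b1 = 0 := by
    simp only [d1, d2]
    linear_combination e23 + P3 * h2e - x * ab3 + z * bc3
  have hkq : k * q3 * P1 ≠ 0 := mul_ne_zero (mul_ne_zero ku.ne_zero hq3) h0
  have z1 : d1 = 0 := by
    apply mul_left_cancel₀ hkq
    linear_combination (-d1) * ab1 + b3 * da3 + a1 * db1 + b2 * da2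
  have z2 : d2 = 0 := by
    apply mul_left_cancel₀ hkq
    linear_combination (-d2) * ab1 - b2 * da1 + a2 * db1
  have z3 : d3 = 0 := by
    apply mul_left_cancel₀ hkq
    linear_combination (-d3) * ab1 - b3 * da1 + a3 * db1
  exact ⟨x, y, z, sub_eq_zero.1 z1, sub_eq_zero.1 z2, sub_eq_zero.1 z3⟩

/-- The relations between `n₁, n₂, n₃` in the first case. -/
lemma relations_three {P1 P2 P3 : R} (h0 : P1 ≠ 0) {k q1 q2 q3 : R} (hk : IsUnit k) (hq1 : q1 ≠ 0)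
    (hq : ∀ g, q1 ∣ q2 * g → q1 ∣ g) {a1 a2 a3 b1 b2 b3 c1 c2 c3 : R}
    (ca1 : c2 * a3 - c3 * a2 = k * q2 * P1) (bc1 : b2 * c3 - b3 * c2 = k * q1 * P1)
    (ab1 : a2 * b3 - a3 * b2 = k * q3 * P1) {x y z : R}
    (r2 : x * a2 + y * b2 + z * c2 = 0) (r3 : x * a3 + y * b3 + z * c3 = 0) :
    ∃ s, x = s * q1 ∧ y = s * q2 ∧ z = s * q3 := by
  have hkP : k * P1 ≠ 0 := mul_ne_zero hk.ne_zero h0
  have e1 : q1 * y = q2 * x := by
    apply mul_left_cancel₀ hkP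
    linear_combination (-y) * bc1 + x * ca1 + c3 * r2 - c2 * r3 + 0 * ab1
  have e2 : q1 * z = q3 * x := by
    apply mul_left_cancel₀ hkP
    linear_combination (-z) * bc1 + x * ab1 - b3 * r2 + b2 * r3
  obtain ⟨s, hs⟩ := hq x ⟨y, e1.symm⟩
  refine ⟨s, by rw [hs]; ring, ?_, ?_⟩
  · apply mul_left_cancel₀ hq1
    rw [e1, hs]; ring
  · apply mul_left_cancel₀ hq1
    rw [e2, hs]; ring

/-- The second case: a syzygy `s` of degree one and the Koszul syzygies. -/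
lemma generate_two {P1 P2 P3 : R} (h0 : P1 ≠ 0) (hc : ∀ g, P1 ∣ P2 * g → P1 ∣ g)
    {s1 s2 s3 : R} (hs : s1 * P1 + s2 * P2 + s3 * P3 = 0) (hs1 : s1 ≠ 0)
    (hs12 : ∀ g, s1 ∣ s2 * g → s1 ∣ g)
    (hh : ∀ h u1 u2 u3, u1 * P1 + u2 * P2 + u3 * P3 = 0 → s2 * u3 - s3 * u2 = h * P1 →
      s3 * u1 - s1 * u3 = h * P2 → s1 * u2 - s2 * u1 = h * P3 → ∃ a b, h = s1 * a + s3 * b)
    {u1 u2 u3 : R} (hu : u1 * P1 + u2 * P2 + u3 * P3 = 0) :
    ∃ x y z, u1 = x * s1 + z * P2 ∧ u2 = x * s2 + y * P3 - z * P1 ∧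
      u3 = x * s3 - y * P2 := by
  obtain ⟨h, e1, e2, e3⟩ := cross_eq h0 hc hs hu
  obtain ⟨y, z, hyz⟩ := hh h u1 u2 u3 hu e1 e2 e3
  -- k1 = (0, P3, -P2), s × k1 = s1 P ; k3 = (P2, -P1, 0), s × k3 = s3 P
  have f1 : s2 * (u3 + y * P2) - s3 * (u2 - y * P3 + z * P1) = 0 := by
    linear_combination e1 + P1 * hyz + y * hs
  have f2 : s3 * (u1 - z * P2) - s1 * (u3 + y * P2) = 0 := by
    linear_combination e2 + P2 * hyz
  have f3 : s1 * (u2 - y * P3 + z * P1) - s2 * (u1 - z * P2) = 0 := by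
    linear_combination e3 + P3 * hyz + z * hs
  obtain ⟨x, hx⟩ := hs12 (u1 - z * P2) ⟨u2 - y * P3 + z * P1, by linear_combination -f3⟩
  refine ⟨x, y, z, by linear_combination hx, ?_, ?_⟩
  · apply mul_left_cancel₀ hs1
    linear_combination f3 + s2 * hx
  · apply mul_left_cancel₀ hs1
    linear_combination -f2 + s3 * hx

/-- The relations in the second case. -/
lemma relations_two {P1 P2 P3 : R} (h0 : P1 ≠ 0)
    {s1 s2 s3 : R} (hs : s1 * P1 + s2 * P2 + s3 * P3 = 0) (hs1 : s1 ≠ 0)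
    (hs31 : ∀ g, s1 ∣ s3 * g → s1 ∣ g) {x y z : R} (r1 : x * s1 + z * P2 = 0)
    (r2 : x * s2 + y * P3 - z * P1 = 0) (r3 : x * s3 - y * P2 = 0) :
    ∃ t, x = t * P2 ∧ y = t * s3 ∧ z = t * (-s1) := by
  have e : s1 * y = -(s3 * z) := by
    apply mul_left_cancel₀ h0
    linear_combination (-s3) * r2 + s2 * r3 + y * hs
  obtain ⟨t, ht⟩ := hs31 z ⟨-y, by linear_combination e⟩
  refine ⟨-t, ?_, ?_, ?_⟩
  · apply mul_left_cancel₀ hs1
    linear_combination r1 - P2 * ht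
  · apply mul_left_cancel₀ hs1
    linear_combination e - s3 * ht
  · linear_combination ht

end Pool.Agent.Q64.POG.Alg
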