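import Mathlib

/-!
# Plus-one generated arrangements: definitions
-/

set_option autoImplicit false

namespace Pool.Agent.Q64.POG

open MvPolynomial

/-- The polynomial ring `S = K[x_1, …, x_ℓ]`. -/
abbrev S (K : Type) [Field K] (ℓ : ℕ) : Type := MvPolynomial (Fin ℓ) K

/-- The linear form `∑ j, a j * x_j`. -/
noncomputable def linearForm {K : Type} [Field K] {ℓ : ℕ} (a : Fin ℓ → K) : S K ℓ :=
  ∑ j, C (a j) * X j

/-- The hyperplane in `K^ℓ` which is the kernel of the linear form `∑ j, a j * x_j`. -/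
def hyperplane {K : Type} [Field K] {ℓ : ℕ} (a : Fin ℓ → K) : Submodule K (Fin ℓ → K) :=
  LinearMap.ker ((LinearMap.lsum K (fun _ : Fin ℓ => K) K) (fun j => a j • LinearMap.id))

/-- `A` is the family of the (coefficient vectors of the) defining linear forms of an essential
central arrangement of `n` distinct hyperplanes in `K^ℓ`. -/
structure IsArrangement {K : Type} [Field K] {ℓ n : ℕ} (A : Fin n → Fin ℓ → K) : Prop where
  ne_zero : ∀ i, A i ≠ 0
  distinct : Function.Injective fun i => hyperplane (A i)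
  essential : ⨅ i, hyperplane (A i) = ⊥

/-- The set of all intersections of subfamilies of the hyperplanes (the empty intersection
being `K^ℓ`), ordered by inclusion. -/
def intersections {K : Type} [Field K] {ℓ n : ℕ} (A : Fin n → Fin ℓ → K) :
    Set (Submodule K (Fin ℓ → K)) :=
  {W | ∃ s : Set (Fin n), W = ⨅ i ∈ s, hyperplane (A i)}

/-- The intersection lattice `L(A)`: all intersections of the hyperplanes, ordered by reverse
inclusion. -/
abbrev Lattice {K : Type} [Field K] {ℓ n : ℕ} (A : Fin n → Fin ℓ → K) : Type :=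
  (intersections A)ᵒᵈ

/-- The `S`-module `D(A)` of the logarithmic derivations: all `K`-linear derivations `θ` of `S`
with `θ(α_H) ∈ S α_H` for all `H` in `A`. -/
noncomputable def logDer {K : Type} [Field K] {ℓ n : ℕ} (A : Fin n → Fin ℓ → K) :
    Submodule (S K ℓ) (Derivation K (S K ℓ) (S K ℓ)) where
  carrier := {θ | ∀ i, linearForm (A i) ∣ θ (linearForm (A i))}
  add_mem' := fun {θ η} hθ hη i => by
    rw [Derivation.add_apply]
    exact dvd_add (hθ i) (hη i)
  zero_mem' := fun i => by rw [Derivation.zero_apply]; exact dvd_zero _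
  smul_mem' := fun r θ hθ i => by
    rw [Derivation.smul_apply, smul_eq_mul]
    exact dvd_mul_of_dvd_right (hθ i) r

/-- The derivation `θ = ∑ f_j ∂_{x_j}` is homogeneous of degree `p`: all `f_j` are in `S_p`. -/
def IsHomogeneousDer {K : Type} [Field K] {ℓ : ℕ} (θ : Derivation K (S K ℓ) (S K ℓ)) (p : ℕ) :
    Prop :=
  ∀ j, (θ (X j)).IsHomogeneous p

/-- `θ_1, …, θ_ℓ, φ` and the relation `∑ f_i θ_i + α φ = 0` are a minimal graded free resolution
`0 → S[-d-1] → S[-d] ⊕ ⨁ S[-e_i] → D(A) → 0` of `D(A)`: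

* `θ_i` is in `D(A)` and homogeneous of degree `e_i`, `φ` is in `D(A)` and homogeneous of degree `d`,
* they generate `D(A)`,
* `f_i` is homogeneous of degree `d + 1 - e_i` (zero if this number is negative), `α` is homogeneous
  of degree one, and `∑ f_i θ_i + α φ = 0`,
* `(f, α) ≠ 0`, and every relation between `θ_1, …, θ_ℓ, φ` is a multiple of `(f, α)`,
* the resolution is minimal: no `f_i` is a nonzero constant (`f_i` is homogeneous, so this means that
  its constant coefficient is zero). -/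
structure IsResolution {K : Type} [Field K] {ℓ n : ℕ} (A : Fin n → Fin ℓ → K) (e : Fin ℓ → ℕ)
    (d : ℕ) (θ : Fin ℓ → Derivation K (S K ℓ) (S K ℓ)) (φ : Derivation K (S K ℓ) (S K ℓ))
    (f : Fin ℓ → S K ℓ) (α : S K ℓ) : Prop where
  mem : ∀ i, θ i ∈ logDer A
  mem_last : φ ∈ logDer A
  homogeneous : ∀ i, IsHomogeneousDer (θ i) (e i)
  homogeneous_last : IsHomogeneousDer φ d
  generate : Submodule.span (S K ℓ) (Set.range θ ∪ {φ}) = logDer A
  degree : ∀ i, f i ≠ 0 → ∃ k, e i + k = d + 1 ∧ (f i).IsHomogeneous k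
  degree_last : α.IsHomogeneous 1
  relation : ∑ i, f i • θ i + α • φ = 0
  ne_zero : f ≠ 0 ∨ α ≠ 0
  unique : ∀ (g : Fin ℓ → S K ℓ) (h : S K ℓ), ∑ i, g i • θ i + h • φ = 0 →
    ∃ s : S K ℓ, (∀ i, g i = s * f i) ∧ h = s * α
  minimal : ∀ i, constantCoeff (f i) = 0

/-- `A` is plus-one generated with exponents `e` and level `d`. -/
def IsPlusOneGenerated {K : Type} [Field K] {ℓ n : ℕ} (A : Fin n → Fin ℓ → K) (e : Fin ℓ → ℕ)
    (d : ℕ) : Prop :=
  ∃ θ φ f α, IsResolution A e d θ φ f α

/-- `A` is strictly plus-one generated with exponents `e` and level `d`. -/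
def IsStrictlyPlusOneGenerated {K : Type} [Field K] {ℓ n : ℕ} (A : Fin n → Fin ℓ → K)
    (e : Fin ℓ → ℕ) (d : ℕ) : Prop :=
  ∃ θ φ f α, IsResolution A e d θ φ f α ∧ α ≠ 0

end Pool.Agent.Q64.POG
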