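import Pool.Agent.Q64.POG.Poly

/-!
# The logarithmic derivations of the arrangements `arr w`
-/

set_option autoImplicit false

namespace Pool.Agent.Q64.POG

open MvPolynomial

variable {K : Type} [Field K]

lemma apply_linearForm {ℓ : ℕ} (θ : Derivation K (S K ℓ) (S K ℓ)) (a : Fin ℓ → K) :
    θ (linearForm a) = ∑ j, C (a j) * θ (X j) := by
  rw [linearForm, map_sum]
  refine Finset.sum_congr rfl fun j _ => ?_
  rw [Derivation.leibniz]
  simp

lemma form3 (a b c : K) : linearForm ![a, b, c] = C a * X 0 + C b * X 1 + C c * X 2 := by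
  simp [linearForm, Fin.sum_univ_three]

lemma app3 (θ : Derivation K (S K 3) (S K 3)) (a b c : K) :
    θ (linearForm ![a, b, c]) = C a * θ (X 0) + C b * θ (X 1) + C c * θ (X 2) := by
  rw [apply_linearForm]
  simp [Fin.sum_univ_three]

lemma forall_fin12 {p : Fin 12 → Prop} : (∀ i, p i) ↔ p 0 ∧ p 1 ∧ p 2 ∧ p 3 ∧ p 4 ∧ p 5 ∧ p 6 ∧
    p 7 ∧ p 8 ∧ p 9 ∧ p 10 ∧ p 11 := by
  constructor
  · intro h
    exact ⟨h 0, h 1, h 2, h 3, h 4, h 5, h 6, h 7, h 8, h 9, h 10, h 11⟩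
  · rintro ⟨h0, h1, h2, h3, h4, h5, h6, h7, h8, h9, h10, h11⟩ i
    fin_cases i <;> assumption

lemma mem_logDer_rows (w : K) (θ : Derivation K (S K 3) (S K 3)) :
    θ ∈ logDer (arr w) ↔ X 0 ∣ θ (X 0) ∧ X 1 ∣ θ (X 1) ∧ X 2 ∣ θ (X 2) ∧
      ((X 0 - C w * X 1 : S K 3) ∣ θ (X 0) - C w * θ (X 1) ∧
        (X 0 + C w * X 1 : S K 3) ∣ θ (X 0) + C w * θ (X 1) ∧
        (C (w ^ 2) * X 0 - X 1 : S K 3) ∣ C (w ^ 2) * θ (X 0) - θ (X 1)) ∧
      ((X 1 - C w * X 2 : S K 3) ∣ θ (X 1) - C w * θ (X 2) ∧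
        (X 1 + C w * X 2 : S K 3) ∣ θ (X 1) + C w * θ (X 2) ∧
        (C (w ^ 2) * X 1 - X 2 : S K 3) ∣ C (w ^ 2) * θ (X 1) - θ (X 2)) ∧
      ((X 2 - C w * X 0 : S K 3) ∣ θ (X 2) - C w * θ (X 0) ∧
        (X 2 + C w * X 0 : S K 3) ∣ θ (X 2) + C w * θ (X 0) ∧
        (C (w ^ 2) * X 2 - X 0 : S K 3) ∣ C (w ^ 2) * θ (X 2) - θ (X 0)) := by
  have h : θ ∈ logDer (arr w) ↔ ∀ i, linearForm (arr w i) ∣ θ (linearForm (arr w i)) := Iff.rfl
  rw [h, forall_fin12]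
  have r0 : arr w 0 = ![1, 0, 0] := rfl
  have r1 : arr w 1 = ![0, 1, 0] := rfl
  have r2 : arr w 2 = ![0, 0, 1] := rfl
  have r3 : arr w 3 = ![1, -w, 0] := rfl
  have r4 : arr w 4 = ![1, w, 0] := rfl
  have r5 : arr w 5 = ![w ^ 2, -1, 0] := rfl
  have r6 : arr w 6 = ![0, 1, -w] := rfl
  have r7 : arr w 7 = ![0, 1, w] := rfl
  have r8 : arr w 8 = ![0, w ^ 2, -1] := rfl
  have r9 : arr w 9 = ![-w, 0, 1] := rfl
  have r10 : arr w 10 = ![w, 0, 1] := rfl
  have r11 : arr w 11 = ![-1, 0, w ^ 2] := rfl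
  rw [r0, r1, r2, r3, r4, r5, r6, r7, r8, r9, r10, r11]
  simp only [app3]
  simp only [form3, map_one, map_zero, map_neg, one_mul, zero_mul, add_zero, zero_add,
    neg_mul, ← sub_eq_add_neg]
  have c1 : (-(C w * X 0) + X 2 : S K 3) = X 2 - C w * X 0 := by ring
  have c2 : (-(C w * θ (X 0)) + θ (X 2) : S K 3) = θ (X 2) - C w * θ (X 0) := by ring
  have c3 : (C w * X 0 + X 2 : S K 3) = X 2 + C w * X 0 := by ring
  have c4 : (C w * θ (X 0) + θ (X 2) : S K 3) = θ (X 2) + C w * θ (X 0) := by ring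
  have c5 : (-X 0 + C (w ^ 2) * X 2 : S K 3) = C (w ^ 2) * X 2 - X 0 := by ring
  have c6 : (-θ (X 0) + C (w ^ 2) * θ (X 2) : S K 3) = C (w ^ 2) * θ (X 2) - θ (X 0) := by ring
  rw [c1, c2, c3, c4, c5, c6]
  tauto

/-- The structure of the module of logarithmic derivations of `arr w`. -/
theorem mem_logDer_iff {w : K} (hw : Good w) (θ : Derivation K (S K 3) (S K 3)) :
    θ ∈ logDer (arr w) ↔ ∃ c u0 u1 u2 : S K 3,
      u0 * PP w 1 2 + u1 * PP w 2 0 + u2 * PP w 0 1 = 0 ∧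
      θ (X 0) = X 0 * (c - u1 * PP w 2 0) ∧ θ (X 1) = X 1 * (c + u0 * PP w 1 2) ∧
      θ (X 2) = X 2 * c := by
  rw [mem_logDer_rows]
  constructor
  · rintro ⟨⟨a, ha⟩, ⟨b, hb⟩, ⟨c, hc⟩, h1, h2, h3⟩
    rw [ha, hb] at h1
    rw [hb, hc] at h2
    rw [hc, ha] at h3
    rw [pair_iff hw (by decide)] at h1 h2 h3
    obtain ⟨u2, hu2⟩ := h1
    obtain ⟨u0, hu0⟩ := h2
    obtain ⟨u1, hu1⟩ := h3
    refine ⟨c, u0, u1, u2, ?_, ?_, ?_, hc⟩
    · linear_combination -hu0 - hu1 - hu2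
    · rw [ha]; linear_combination (-X 0) * hu1
    · rw [hb]; linear_combination X 1 * hu0
  · rintro ⟨c, u0, u1, u2, h, h0, h1, h2⟩
    refine ⟨⟨_, h0⟩, ⟨_, h1⟩, ⟨_, h2⟩, ?_⟩
    rw [h0, h1, h2]
    rw [pair_iff hw (by decide), pair_iff hw (by decide), pair_iff hw (by decide)]
    refine ⟨⟨u2, by linear_combination -h⟩, ⟨u0, by ring⟩, ⟨u1, by ring⟩⟩

/-- The derivation with the parameters `c, u`. -/
noncomputable def der (w : K) (c : S K 3) (u : Fin 3 → S K 3) : Derivation K (S K 3) (S K 3) :=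
  mkDerivation K ![X 0 * (c - u 1 * PP w 2 0), X 1 * (c + u 0 * PP w 1 2), X 2 * c]

lemma der_X (w : K) (c : S K 3) (u : Fin 3 → S K 3) (k : Fin 3) :
    der w c u (X k) = ![X 0 * (c - u 1 * PP w 2 0), X 1 * (c + u 0 * PP w 1 2), X 2 * c] k := by
  rw [der, mkDerivation_X]

lemma der_add (w : K) (c c' : S K 3) (u u' : Fin 3 → S K 3) :
    der w (c + c') (u + u') = der w c u + der w c' u' := by
  apply MvPolynomial.derivation_ext
  intro k
  rw [Derivation.add_apply, der_X, der_X, der_X]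
  fin_cases k <;> simp <;> ring

lemma der_smul (w : K) (r c : S K 3) (u : Fin 3 → S K 3) :
    der w (r * c) (r • u) = r • der w c u := by
  apply MvPolynomial.derivation_ext
  intro k
  rw [Derivation.smul_apply, der_X, der_X]
  fin_cases k <;> simp <;> ring

/-- `u` is a syzygy of `P 1 2, P 2 0, P 0 1`. -/
def IsSyz (w : K) (u : Fin 3 → S K 3) : Prop :=
  u 0 * PP w 1 2 + u 1 * PP w 2 0 + u 2 * PP w 0 1 = 0

lemma der_mem {w : K} (hw : Good w) (c : S K 3) {u : Fin 3 → S K 3} (hu : IsSyz w u) :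
    der w c u ∈ logDer (arr w) := by
  rw [mem_logDer_iff hw]
  refine ⟨c, u 0, u 1, u 2, hu, ?_, ?_, ?_⟩ <;> rw [der_X] <;> rfl

lemma exists_der {w : K} (hw : Good w) {θ : Derivation K (S K 3) (S K 3)}
    (h : θ ∈ logDer (arr w)) : ∃ c u, IsSyz w u ∧ θ = der w c u := by
  rw [mem_logDer_iff hw] at h
  obtain ⟨c, u0, u1, u2, h, h0, h1, h2⟩ := h
  refine ⟨c, ![u0, u1, u2], h, ?_⟩
  apply MvPolynomial.derivation_ext
  intro k
  rw [der_X]
  fin_cases k
  exacts [h0, h1, h2]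

lemma der_eq_zero {w : K} (hw : w ≠ 0) {c : S K 3} {u : Fin 3 → S K 3} (hu : IsSyz w u)
    (h : der w c u = 0) : c = 0 ∧ u = 0 := by
  have e : ∀ k, der w c u (X k) = 0 := by
    intro k; rw [h]; rfl
  have h0 := e 0
  have h1 := e 1
  have h2 := e 2
  rw [der_X] at h0 h1 h2
  simp only [Matrix.cons_val_zero, Matrix.cons_val_one, Matrix.cons_val, mul_eq_zero,
    X_ne_zero, false_or] at h0 h1 h2
  subst h2
  have u1 : u 1 = 0 := by
    have : u 1 * PP w 2 0 = 0 := by linear_combination -h0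
    exact (mul_eq_zero.1 this).resolve_right (PP_ne_zero hw (by decide))
  have u0 : u 0 = 0 := by
    have : u 0 * PP w 1 2 = 0 := by linear_combination h1
    exact (mul_eq_zero.1 this).resolve_right (PP_ne_zero hw (by decide))
  have u2 : u 2 = 0 := by
    have hu' : u 0 * PP w 1 2 + u 1 * PP w 2 0 + u 2 * PP w 0 1 = 0 := hu
    have : u 2 * PP w 0 1 = 0 := by rw [u0, u1] at hu'; linear_combination hu'
    exact (mul_eq_zero.1 this).resolve_right (PP_ne_zero hw (by decide))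
  refine ⟨rfl, ?_⟩
  funext k
  fin_cases k
  exacts [u0, u1, u2]

lemma PP_homogeneous (w : K) (i j : Fin 3) : (PP w i j).IsHomogeneous 3 := by
  have h1 : (X i ^ 2 - C (w ^ 2) * X j ^ 2 : S K 3).IsHomogeneous 2 := by
    refine IsHomogeneous.sub (isHomogeneous_X_pow i 2) ?_
    have := (isHomogeneous_C (Fin 3) (w ^ 2)).mul (isHomogeneous_X_pow (R := K) j 2)
    simpa using this
  have h2 : (C (w ^ 2) * X i - X j : S K 3).IsHomogeneous 1 := by
    refine IsHomogeneous.sub ?_ (isHomogeneous_X K j)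
    have := (isHomogeneous_C (Fin 3) (w ^ 2)).mul (isHomogeneous_X K i)
    simpa using this
  exact h1.mul h2

lemma der_homogeneous (w : K) {u : Fin 3 → S K 3} {m : ℕ} (h : ∀ k, (u k).IsHomogeneous m) :
    IsHomogeneousDer (der w 0 u) (m + 4) := by
  intro k
  rw [der_X]
  have e : m + 4 = 1 + (m + 3) := by ring
  rw [e]
  fin_cases k
  · show (X 0 * (0 - u 1 * PP w 2 0)).IsHomogeneous _
    refine (isHomogeneous_X K 0).mul ?_
    rw [zero_sub]
    exact ((h 1).mul (PP_homogeneous w 2 0)).neg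
  · show (X 1 * (0 + u 0 * PP w 1 2)).IsHomogeneous _
    refine (isHomogeneous_X K 1).mul ?_
    rw [zero_add]
    exact (h 0).mul (PP_homogeneous w 1 2)
  · show (X 2 * 0 : S K 3).IsHomogeneous _
    rw [mul_zero]
    exact isHomogeneous_zero _ _ _

lemma isSyz_zero (w : K) : IsSyz w 0 := by simp [IsSyz]

lemma euler_homogeneous (w : K) : IsHomogeneousDer (der w 1 0) 1 := by
  intro k
  rw [der_X]
  fin_cases k
  · show (X 0 * (1 - (0 : Fin 3 → S K 3) 1 * PP w 2 0)).IsHomogeneous _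
    simpa using isHomogeneous_X K 0
  · show (X 1 * (1 + (0 : Fin 3 → S K 3) 0 * PP w 1 2)).IsHomogeneous _
    simpa using isHomogeneous_X K 1
  · show (X 2 * 1 : S K 3).IsHomogeneous _
    simpa using isHomogeneous_X K 2

end Pool.Agent.Q64.POG
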