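import Pool.Agent.H158R3.Lat
import Pool.Agent.Q64.POG.Defs

/-!
# The intersection lattices of a family of arrangements of twelve planes
-/

set_option autoImplicit false

namespace Pool.Agent.Q64.POG

open Pool.Agent.H158R3

variable {K : Type} [Field K]

/-- The twelve planes `x = 0`, `y = 0`, `z = 0`, `x = w y`, `x = -w y`, `w² x = y`, `y = w z`,
`y = -w z`, `w² y = z`, `z = w x`, `z = -w x`, `w² z = x`. -/
def arr (w : K) : Fin 12 → Fin 3 → K :=
  ![![1, 0, 0], ![0, 1, 0], ![0, 0, 1], ![1, -w, 0], ![1, w, 0], ![w ^ 2, -1, 0],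
    ![0, 1, -w], ![0, 1, w], ![0, w ^ 2, -1], ![-w, 0, 1], ![w, 0, 1], ![-1, 0, w ^ 2]]

/-- evaluation of integral polynomials in one variable, given by lists of coefficients -/
def ev (w : K) : List ℤ → K
  | [] => 0
  | a :: l => a + w * ev w l

/-- sum of polynomials -/
def ladd : List ℤ → List ℤ → List ℤ
  | [], m => m
  | l, [] => l
  | a :: l, b :: m => (a + b) :: ladd l m

/-- constant multiple -/
def lsm (c : ℤ) (l : List ℤ) : List ℤ := l.map (c * ·)

/-- product of polynomials -/
def lmul : List ℤ → List ℤ → List ℤ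
  | [], _ => []
  | a :: l, m => ladd (lsm a m) (0 :: lmul l m)

/-- is the polynomial zero -/
def isZ (l : List ℤ) : Bool := l.all (· == 0)

lemma ev_ladd (w : K) : ∀ l m : List ℤ, ev w (ladd l m) = ev w l + ev w m
  | [], m => by simp [ladd, ev]
  | a :: l, [] => by simp [ladd, ev]
  | a :: l, b :: m => by
    simp only [ladd, ev, ev_ladd w l m]
    push_cast
    ring

lemma ev_lsm (w : K) (c : ℤ) : ∀ l : List ℤ, ev w (lsm c l) = c * ev w l
  | [] => by simp [lsm, ev]
  | a :: l => by
    have := ev_lsm w c l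
    simp only [lsm, List.map_cons, ev] at this ⊢
    rw [this]
    push_cast
    ring

lemma ev_lmul (w : K) : ∀ l m : List ℤ, ev w (lmul l m) = ev w l * ev w m
  | [], m => by simp [lmul, ev]
  | a :: l, m => by
    simp only [lmul, ev_ladd, ev, ev_lsm, ev_lmul w l m]
    push_cast
    ring

lemma ev_isZ (w : K) : ∀ l : List ℤ, isZ l = true → ev w l = 0
  | [], _ => by simp [ev]
  | a :: l, h => by
    simp only [isZ, List.all_cons, Bool.and_eq_true, beq_iff_eq] at h
    rw [ev, ev_isZ w l h.2, h.1]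
    simp

/-- the coefficients as polynomials in `w` -/
def M : Fin 12 → Fin 3 → List ℤ :=
  ![![[1], [], []], ![[], [1], []], ![[], [], [1]], ![[1], [0, -1], []], ![[1], [0, 1], []],
    ![[0, 0, 1], [-1], []], ![[], [1], [0, -1]], ![[], [1], [0, 1]], ![[], [0, 0, 1], [-1]],
    ![[0, -1], [], [1]], ![[0, 1], [], [1]], ![[-1], [], [0, 0, 1]]]

lemma arr_eq (w : K) (i : Fin 12) (j : Fin 3) : arr w i j = ev w (M i j) := by
  fin_cases i <;> fin_cases j <;> simp [arr, M, ev, pow_two]

/-- the minors -/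
def detL (i j k : Fin 12) : List ℤ :=
  ladd (lmul (M i 0) (ladd (lmul (M j 1) (M k 2)) (lsm (-1) (lmul (M j 2) (M k 1)))))
    (ladd (lsm (-1) (lmul (M i 1) (ladd (lmul (M j 0) (M k 2)) (lsm (-1) (lmul (M j 2) (M k 0))))))
      (lmul (M i 2) (ladd (lmul (M j 0) (M k 1)) (lsm (-1) (lmul (M j 1) (M k 0))))))

lemma det_eq (w : K) (i j k : Fin 12) :
    Matrix.det (Matrix.of ![arr w i, arr w j, arr w k]) = ev w (detL i j k) := by
  rw [Matrix.det_fin_three]
  simp only [detL, ev_ladd, ev_lmul, ev_lsm, ← arr_eq]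
  simp
  ring

/-- the values of the nonzero minors, up to sign -/
def cands : List (List ℤ) :=
  [[1], [0, 1], [0, 0, 1], [0, 0, 0, 1], [0, 0, 0, 0, 1], [0, 2], [0, 0, 2], [0, 0, 0, 2],
    [-1, 0, 0, 1], [1, 0, 0, 1], [0, -1, 0, 0, 1], [0, 1, 0, 0, 1], [0, 0, -1, 0, 0, 1],
    [0, 0, 1, 0, 0, 1], [-1, 0, 0, 0, 0, 0, 1]]

lemma check : ∀ i j k : Fin 12, i < j → j < k → isZ (detL i j k) = true ∨
    ∃ c ∈ cands, isZ (ladd (detL i j k) c) = true ∨ isZ (ladd (detL i j k) (lsm (-1) c)) = true := by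
  decide +kernel

lemma cands_ne {w : K} (h2 : (2 : K) ≠ 0) (hw : w ≠ 0) (hw1 : w ^ 6 ≠ 1) :
    ∀ c ∈ cands, ev w c ≠ 0 := by
  have h3 : w ^ 3 - 1 ≠ 0 := by
    intro h
    apply hw1
    linear_combination (w ^ 3 + 1) * h
  have h4 : w ^ 3 + 1 ≠ 0 := by
    intro h
    apply hw1
    linear_combination (w ^ 3 - 1) * h
  have h5 : w ^ 6 - 1 ≠ 0 := sub_ne_zero.2 hw1
  intro c hc
  simp only [cands, List.mem_cons, List.not_mem_nil, or_false] at hc
  rcases hc with rfl | rfl | rfl | rfl | rfl | rfl | rfl | rfl | rfl | rfl | rfl | rfl | rfl | rfl | rfl <;>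
    simp only [ev]
  · simp
  · simpa using hw
  · simpa using hw
  · simpa using hw
  · simpa using hw
  · simpa using ⟨hw, h2⟩
  · simpa using ⟨hw, h2⟩
  · simpa using ⟨hw, h2⟩
  · intro h; apply h3; rw [← h]; push_cast; ring
  · intro h; apply h4; rw [← h]; push_cast; ring
  · intro h; apply mul_ne_zero hw h3; rw [← h]; push_cast; ring
  · intro h; apply mul_ne_zero hw h4; rw [← h]; push_cast; ring
  · intro h; apply mul_ne_zero (mul_ne_zero hw hw) h3; rw [← h]; push_cast; ring
  · intro h; apply mul_ne_zero (mul_ne_zero hw hw) h4; rw [← h]; push_cast; ring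
  · intro h; apply h5; rw [← h]; push_cast; ring

lemma det_ne_zero_iff {w : K} (h2 : (2 : K) ≠ 0) (hw : w ≠ 0) (hw1 : w ^ 6 ≠ 1) {i j k : Fin 12}
    (hij : i < j) (hjk : j < k) :
    Matrix.det (Matrix.of ![arr w i, arr w j, arr w k]) ≠ 0 ↔ isZ (detL i j k) = false := by
  rw [det_eq]
  constructor
  · intro h
    by_contra hc
    rw [Bool.not_eq_false] at hc
    exact h (ev_isZ w _ hc)
  · intro h
    rcases check i j k hij hjk with hc | ⟨c, hc, hc2⟩
    · rw [hc] at h; exact absurd h (by simp)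
    · have h3 := cands_ne h2 hw hw1 c hc
      intro h4
      apply h3
      rcases hc2 with hc2 | hc2
      · have := ev_isZ w _ hc2
        rw [ev_ladd, h4] at this
        simpa using this
      · have := ev_isZ w _ hc2
        rw [ev_ladd, h4, ev_lsm] at this
        simpa using this

lemma of_emb (a : Fin 12 → Fin 3 → K) (e : Fin 3 ↪o Fin 12) :
    Matrix.of (fun i => a (e i)) = Matrix.of ![a (e 0), a (e 1), a (e 2)] := by
  ext i j
  fin_cases i <;> rfl

lemma span_top (w : K) : Submodule.span K (Set.range (arr w)) = ⊤ := by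
  rw [eq_top_iff]
  rintro v -
  have h : v = v 0 • arr w 0 + v 1 • arr w 1 + v 2 • arr w 2 := by
    ext i
    fin_cases i <;> simp [arr]
  rw [h]
  exact add_mem (add_mem (Submodule.smul_mem _ _ (Submodule.subset_span ⟨0, rfl⟩))
    (Submodule.smul_mem _ _ (Submodule.subset_span ⟨1, rfl⟩)))
    (Submodule.smul_mem _ _ (Submodule.subset_span ⟨2, rfl⟩))

lemma hyperplane_eq {ℓ : ℕ} (a : Fin ℓ → K) : hyperplane a = hyp a := ker_fn a

lemma intersections_eq {ℓ n : ℕ} (A : Fin n → Fin ℓ → K) : intersections A = LL A := by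
  unfold intersections LL
  simp only [hyperplane_eq]

/-- The intersection lattice of `arr w` does not depend on `w`. -/
theorem lattice_iso {w v : K} (h2 : (2 : K) ≠ 0) (hw : w ≠ 0) (hw1 : w ^ 6 ≠ 1) (hv : v ≠ 0)
    (hv1 : v ^ 6 ≠ 1) : Nonempty (Lattice (arr w) ≃o Lattice (arr v)) := by
  have h : Nonempty (intersections (arr w) ≃o intersections (arr v)) := by
    rw [intersections_eq, intersections_eq]
    apply lattice_iso_of_indep
    intro t
    constructor
    · refine indep_of_minors (span_top w) (fun e he => ?_) t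
      rw [of_emb, det_ne_zero_iff h2 hw hw1 (e.strictMono (by decide)) (e.strictMono (by decide))]
        at he
      rw [of_emb, det_ne_zero_iff h2 hv hv1 (e.strictMono (by decide)) (e.strictMono (by decide))]
      exact he
    · refine indep_of_minors (span_top v) (fun e he => ?_) t
      rw [of_emb, det_ne_zero_iff h2 hv hv1 (e.strictMono (by decide)) (e.strictMono (by decide))]
        at he
      rw [of_emb, det_ne_zero_iff h2 hw hw1 (e.strictMono (by decide)) (e.strictMono (by decide))]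
      exact he
  obtain ⟨e⟩ := h
  exact ⟨e.dual⟩

/-- some `2 × 2` minor of the rows `i` and `j` is not zero -/
lemma check2 : ∀ i j : Fin 12, i ≠ j → ∃ a b : Fin 3, ∃ c ∈ cands,
    isZ (ladd (ladd (lmul (M i a) (M j b)) (lsm (-1) (lmul (M i b) (M j a)))) c) = true ∨
    isZ (ladd (ladd (lmul (M i a) (M j b)) (lsm (-1) (lmul (M i b) (M j a)))) (lsm (-1) c)) = true := by
  decide +kernel

lemma mem_hyperplane {ℓ : ℕ} (a x : Fin ℓ → K) : x ∈ hyperplane a ↔ ∑ j, a j * x j = 0 := by
  rw [hyperplane_eq]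
  rfl

theorem isArrangement {w : K} (h2 : (2 : K) ≠ 0) (hw : w ≠ 0) (hw1 : w ^ 6 ≠ 1) :
    IsArrangement (arr w) := by
  refine ⟨fun i h => ?_, fun i j h => ?_, ?_⟩
  · have : ∃ j : Fin 3, (arr w i j = 1 ∨ arr w i j = -1) := by
      fin_cases i
      exacts [⟨0, Or.inl rfl⟩, ⟨1, Or.inl rfl⟩, ⟨2, Or.inl rfl⟩, ⟨0, Or.inl rfl⟩, ⟨0, Or.inl rfl⟩,
        ⟨1, Or.inr rfl⟩, ⟨1, Or.inl rfl⟩, ⟨1, Or.inl rfl⟩, ⟨2, Or.inr rfl⟩, ⟨2, Or.inl rfl⟩,
        ⟨2, Or.inl rfl⟩, ⟨0, Or.inr rfl⟩]
    obtain ⟨j, hj⟩ := this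
    rw [h] at hj
    simp at hj
  · by_contra hij
    obtain ⟨a, b, c, hc, hz⟩ := check2 i j hij
    have h3 := cands_ne h2 hw hw1 c hc
    have h5 : arr w i a * arr w j b - arr w i b * arr w j a = 0 := by
      -- the vector orthogonal to `arr w i`
      classical
      have hab : a ≠ b := by
        rintro rfl
        apply h3
        rcases hz with hz | hz
        · have := ev_isZ w _ hz
          rw [ev_ladd, ev_ladd, ev_lsm, ev_lmul] at this
          push_cast at this
          linear_combination this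
        · have := ev_isZ w _ hz
          rw [ev_ladd, ev_ladd, ev_lsm, ev_lsm, ev_lmul] at this
          push_cast at this
          linear_combination -this
      let x : Fin 3 → K := Pi.single a (arr w i b) - Pi.single b (arr w i a)
      have hx : x ∈ hyperplane (arr w i) := by
        rw [mem_hyperplane]
        simp only [x, Pi.sub_apply, mul_sub, Finset.sum_sub_distrib, Pi.single_apply, mul_ite,
          mul_zero, Finset.sum_ite_eq', Finset.mem_univ, if_true]
        ring
      have h' : hyperplane (arr w i) = hyperplane (arr w j) := h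
      rw [h', mem_hyperplane] at hx
      simp only [x, Pi.sub_apply, mul_sub, Finset.sum_sub_distrib, Pi.single_apply, mul_ite,
        mul_zero, Finset.sum_ite_eq', Finset.mem_univ, if_true] at hx
      linear_combination -hx
    apply h3
    rw [arr_eq, arr_eq, arr_eq, arr_eq] at h5
    rcases hz with hz | hz
    · have := ev_isZ w _ hz
      rw [ev_ladd, ev_ladd, ev_lsm, ev_lmul, ev_lmul] at this
      push_cast at this
      linear_combination this - h5
    · have := ev_isZ w _ hz
      rw [ev_ladd, ev_ladd, ev_lsm, ev_lsm, ev_lmul, ev_lmul] at this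
      push_cast at this
      linear_combination h5 - this
  · rw [eq_bot_iff]
    intro x hx
    rw [Submodule.mem_iInf] at hx
    have h0 := (mem_hyperplane _ _).1 (hx 0)
    have h1 := (mem_hyperplane _ _).1 (hx 1)
    have h2 := (mem_hyperplane _ _).1 (hx 2)
    simp [arr, Fin.sum_univ_three] at h0 h1 h2
    rw [Submodule.mem_bot]
    ext i
    fin_cases i
    exacts [h0, h1, h2]

end Pool.Agent.Q64.POG
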