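import Pool.Agent.Q64.POG.Res

/-!
# The two types of resolutions
-/

set_option autoImplicit false

namespace Pool.Agent.Q64.POG

open MvPolynomial

variable {K : Type} [Field K]

lemma hom0C (c : K) : (C c : S K 3).IsHomogeneous 0 := isHomogeneous_C _ c

lemma hom0P (c : K) (n : ℕ) : (C c ^ n : S K 3).IsHomogeneous 0 := by
  simpa using (isHomogeneous_C (Fin 3) c).pow n

lemma hom0N (c : K) (n : ℕ) : (-C c ^ n : S K 3).IsHomogeneous 0 := (hom0P c n).neg

lemma hom0Q (c : K) (n : ℕ) : (C c ^ n + 1 : S K 3).IsHomogeneous 0 :=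
  (hom0P c n).add (isHomogeneous_one _ _)

lemma hom2 {c : S K 3} (hc : c.IsHomogeneous 0) (i j : Fin 3) :
    (c * X i * X j).IsHomogeneous 2 := by
  simpa using (hc.mul (isHomogeneous_X K i)).mul (isHomogeneous_X K j)

lemma hom2' {c : S K 3} (hc : c.IsHomogeneous 0) (i : Fin 3) :
    (c * X i ^ 2).IsHomogeneous 2 := by
  simpa using hc.mul (isHomogeneous_X_pow (R := K) i 2)

lemma hom2X (i j : Fin 3) : (X i * X j : S K 3).IsHomogeneous 2 :=
  (isHomogeneous_X K i).mul (isHomogeneous_X K j)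

lemma nA_hom (w : K) (k : Fin 3) : (nA w k).IsHomogeneous 2 := by
  fin_cases k
  · exact (((hom2 (hom0C _) 0 1).add (hom2X 0 2)).sub (hom2 (hom0P _ 2) 1 2)).sub
      (hom2' (hom0C _) 2)
  · exact ((hom2' (hom0P _ 2) 0).sub (hom2' (hom0Q _ 3) 1)).add (hom2' (hom0C _) 2)
  · exact (((hom2' (hom0N _ 2) 0).sub (hom2 (hom0C _) 0 1)).add (hom2 (hom0P _ 3) 0 2)).add
      (hom2 (hom0P _ 2) 1 2)

lemma nB_hom (w : K) (k : Fin 3) : (nB w k).IsHomogeneous 2 := by
  fin_cases k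
  · exact (((hom2' (hom0N _ 2) 1).sub (hom2 (hom0C _) 1 2)).add (hom2 (hom0P _ 3) 1 0)).add
      (hom2 (hom0P _ 2) 2 0)
  · exact (((hom2 (hom0C _) 1 2).add (hom2X 1 0)).sub (hom2 (hom0P _ 2) 2 0)).sub
      (hom2' (hom0C _) 0)
  · exact ((hom2' (hom0P _ 2) 1).sub (hom2' (hom0Q _ 3) 2)).add (hom2' (hom0C _) 0)

lemma nC_hom (w : K) (k : Fin 3) : (nC w k).IsHomogeneous 2 := by
  fin_cases k
  · exact ((hom2' (hom0P _ 2) 2).sub (hom2' (hom0Q _ 3) 0)).add (hom2' (hom0C _) 1)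
  · exact (((hom2' (hom0N _ 2) 2).sub (hom2 (hom0C _) 2 0)).add (hom2 (hom0P _ 3) 2 1)).add
      (hom2 (hom0P _ 2) 0 1)
  · exact (((hom2 (hom0C _) 2 0).add (hom2X 2 1)).sub (hom2 (hom0P _ 2) 0 1)).sub
      (hom2' (hom0C _) 1)

lemma hom1 (c : K) (i : Fin 3) : (C c * X i : S K 3).IsHomogeneous 1 := by
  simpa using (isHomogeneous_C (Fin 3) c).mul (isHomogeneous_X K i)

/-- The generic case: exponents `(1, 6, 6)` and level `6`. -/
theorem generic_resolution {w : K} (hw : Good w) (hw6 : w ^ 6 ≠ -1) :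
    IsResolution (arr w) ![1, 6, 6] 6 ![der w 1 0, der w 0 (nA w), der w 0 (nB w)]
      (der w 0 (nC w)) ![0, qA w, qB w] (qC w) := by
  have h6 : w ^ 6 + 1 ≠ 0 := fun h => hw6 (by linear_combination h)
  exact resolution hw (nA_syz w) (nB_syz w) (nC_syz w) (nA_hom w) (nB_hom w) (nC_hom w)
    (gen_generic hw h6) (rel_generic w) (uniq_generic hw h6)
    ((hom1 _ 1).add (isHomogeneous_X K 2)) (qC_ne w) (k1 := 1) (k2 := 1)
    ((isHomogeneous_X K 0).add (hom1 _ 2)) ((hom1 _ 0).add (isHomogeneous_X K 1))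
    one_pos one_pos rfl rfl

/-! ### The special case -/

/-- the syzygy of degree one -/
noncomputable def sA : Fin 3 → S K 3 := ![X 1 - X 2, X 2 - X 0, X 0 - X 1]

/-- Koszul syzygy -/
noncomputable def sB (w : K) : Fin 3 → S K 3 := ![0, PP w 0 1, -PP w 2 0]

/-- Koszul syzygy -/
noncomputable def sC (w : K) : Fin 3 → S K 3 := ![PP w 2 0, -PP w 1 2, 0]

lemma sA_syz {w : K} (hw : w ^ 2 = -1) : IsSyz w sA := by
  unfold IsSyz sA PP
  simp only [hw, map_neg, map_one, Matrix.cons_val_zero, Matrix.cons_val_one, Matrix.cons_val]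
  ring

lemma sB_syz (w : K) : IsSyz w (sB w) := by
  unfold IsSyz sB
  simp only [Matrix.cons_val_zero, Matrix.cons_val_one, Matrix.cons_val]
  ring

lemma sC_syz (w : K) : IsSyz w (sC w) := by
  unfold IsSyz sC
  simp only [Matrix.cons_val_zero, Matrix.cons_val_one, Matrix.cons_val]
  ring

lemma sA_hom (k : Fin 3) : (sA k : S K 3).IsHomogeneous 1 := by
  fin_cases k
  · exact (isHomogeneous_X K 1).sub (isHomogeneous_X K 2)
  · exact (isHomogeneous_X K 2).sub (isHomogeneous_X K 0)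
  · exact (isHomogeneous_X K 0).sub (isHomogeneous_X K 1)

lemma sB_hom (w : K) (k : Fin 3) : (sB w k).IsHomogeneous 3 := by
  fin_cases k
  · exact isHomogeneous_zero _ _ _
  · exact PP_homogeneous w 0 1
  · exact (PP_homogeneous w 2 0).neg

lemma sC_hom (w : K) (k : Fin 3) : (sC w k).IsHomogeneous 3 := by
  fin_cases k
  · exact PP_homogeneous w 2 0
  · exact (PP_homogeneous w 1 2).neg
  · exact isHomogeneous_zero _ _ _

lemma lin12 : (X 1 - X 2 : S K 3) = lin 1 2 1 := by rw [lin, map_one, one_mul]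

lemma X12_ne : (X 1 - X 2 : S K 3) ≠ 0 := by
  rw [lin12]
  exact lin_ne_zero (by decide) _

lemma cop12 (g : S K 3) (h : (X 1 - X 2 : S K 3) ∣ (X 2 - X 0) * g) :
    (X 1 - X 2 : S K 3) ∣ g := by
  have h12 : (1 : Fin 3) ≠ 2 := by decide
  rw [lin12, lin_dvd_iff h12] at h ⊢
  rw [map_mul, map_sub, rho_ne 2 _ (show (2 : Fin 3) ≠ 1 by decide),
    rho_ne 2 _ (show (0 : Fin 3) ≠ 1 by decide)] at h
  refine (mul_eq_zero.1 h).resolve_left ?_
  intro h0
  have h2 := congrArg (MvPolynomial.eval ![0, 0, 1]) h0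
  simp at h2

lemma cop13 (g : S K 3) (h : (X 1 - X 2 : S K 3) ∣ (X 0 - X 1) * g) :
    (X 1 - X 2 : S K 3) ∣ g := by
  have h12 : (1 : Fin 3) ≠ 2 := by decide
  rw [lin12, lin_dvd_iff h12] at h ⊢
  rw [map_mul, map_sub, rho_self,
    rho_ne 2 _ (show (0 : Fin 3) ≠ 1 by decide)] at h
  refine (mul_eq_zero.1 h).resolve_left ?_
  intro h0
  have h2 := congrArg (MvPolynomial.eval ![1, 0, 0]) h0
  simp at h2

/-- the substitution `x = y = z` -/
noncomputable def dia : S K 3 →ₐ[K] S K 3 := aeval (fun _ => X 2)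

lemma dia_X (k : Fin 3) : dia (X k : S K 3) = X 2 := by simp [dia]

lemma dia_C (c : K) : dia (C c : S K 3) = C c := by simp [dia]

lemma mem_of_dia {h : S K 3} (hh : dia h = 0) :
    ∃ a b, h = (X 1 - X 2) * a + (X 0 - X 1) * b := by
  let I : Ideal (S K 3) := Ideal.span {X 1 - X 2, X 0 - X 1}
  have hA : (X 1 - X 2 : S K 3) ∈ I := Ideal.subset_span (by simp)
  have hB : (X 0 - X 1 : S K 3) ∈ I := Ideal.subset_span (by simp)
  have h1 : (Ideal.Quotient.mkₐ K I).comp dia = Ideal.Quotient.mkₐ K I := by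
    apply MvPolynomial.algHom_ext
    intro k
    rw [AlgHom.comp_apply, dia_X, Ideal.Quotient.mkₐ_eq_mk, Ideal.Quotient.eq]
    fin_cases k
    · show X 2 - X 0 ∈ I
      have : (X 2 - X 0 : S K 3) = (-1) * (X 1 - X 2) + (-1) * (X 0 - X 1) := by ring
      rw [this]
      exact I.add_mem (I.mul_mem_left _ hA) (I.mul_mem_left _ hB)
    · show X 2 - X 1 ∈ I
      have : (X 2 - X 1 : S K 3) = (-1) * (X 1 - X 2) := by ring
      rw [this]
      exact I.mul_mem_left _ hA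
    · show X 2 - X 2 ∈ I
      rw [sub_self]
      exact I.zero_mem
  have h2 := congrArg (fun f => f h) h1
  simp only [AlgHom.comp_apply, hh, map_zero] at h2
  rw [Ideal.Quotient.mkₐ_eq_mk, eq_comm, Ideal.Quotient.eq_zero_iff_mem,
    Ideal.mem_span_pair] at h2
  obtain ⟨a, b, hab⟩ := h2
  exact ⟨a, b, by rw [← hab]; ring⟩

lemma hh_special {w : K} (hw : Good w) (hw2 : w ^ 2 = -1) (h u1 u2 u3 : S K 3)
    (_ : u1 * PP w 1 2 + u2 * PP w 2 0 + u3 * PP w 0 1 = 0)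
    (e1 : (X 2 - X 0) * u3 - (X 0 - X 1) * u2 = h * PP w 1 2) :
    ∃ a b, h = (X 1 - X 2) * a + (X 0 - X 1) * b := by
  apply mem_of_dia
  have e := congrArg dia e1
  simp only [PP, map_sub, map_mul, map_pow, dia_X, dia_C, hw2, map_neg, map_one, sub_self,
    zero_mul] at e
  have e' : dia h * (C (2 * 2) * X 2 ^ 3 : S K 3) = 0 := by
    have : (C (2 * 2) : S K 3) = 4 := by
      rw [show (2 * 2 : K) = ((4 : ℕ) : K) by norm_num, map_natCast]
      norm_num
    rw [this]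
    linear_combination e
  refine (mul_eq_zero.1 e').resolve_right ?_
  exact mul_ne_zero (C_ne_zero' (mul_ne_zero hw.two hw.two)) (pow_ne_zero 3 (X_ne_zero 2))

lemma gen_special {w : K} (hw : Good w) (hw2 : w ^ 2 = -1) (u : Fin 3 → S K 3)
    (hu : IsSyz w u) : ∃ x y z : S K 3, u = x • sA + y • sB w + z • sC w := by
  obtain ⟨x, y, z, h1, h2, h3⟩ := Alg.generate_two (P1 := PP w 1 2) (P2 := PP w 2 0)
    (P3 := PP w 0 1) (PP_ne_zero hw.ne (by decide)) (PP_coprime hw)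
    (s1 := X 1 - X 2) (s2 := X 2 - X 0) (s3 := X 0 - X 1) (sA_syz hw2) X12_ne cop12
    (fun h u1 u2 u3 hu e1 _ _ => hh_special hw hw2 h u1 u2 u3 hu e1) hu
  refine ⟨x, y, z, ?_⟩
  funext k
  fin_cases k
  · show u 0 = x * (X 1 - X 2) + y * 0 + z * PP w 2 0
    rw [h1]; ring
  · show u 1 = x * (X 2 - X 0) + y * PP w 0 1 + z * (-PP w 1 2)
    rw [h2]; ring
  · show u 2 = x * (X 0 - X 1) + y * (-PP w 2 0) + z * 0
    rw [h3]; ring

lemma rel_special {w : K} (hw2 : w ^ 2 = -1) :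
    PP w 2 0 • (sA : Fin 3 → S K 3) + (X 0 - X 1 : S K 3) • sB w + (-(X 1 - X 2) : S K 3) • sC w = 0 := by
  have h : (X 1 - X 2) * PP w 1 2 + (X 2 - X 0) * PP w 2 0 + (X 0 - X 1) * PP w 0 1 = 0 :=
    sA_syz hw2
  funext k
  fin_cases k
  · show PP w 2 0 * (X 1 - X 2) + (X 0 - X 1) * 0 + (-(X 1 - X 2)) * PP w 2 0 = 0
    ring
  · show PP w 2 0 * (X 2 - X 0) + (X 0 - X 1) * PP w 0 1 + (-(X 1 - X 2)) * (-PP w 1 2) = 0
    linear_combination h
  · show PP w 2 0 * (X 0 - X 1) + (X 0 - X 1) * (-PP w 2 0) + (-(X 1 - X 2)) * 0 = 0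
    ring

lemma uniq_special {w : K} (hw : Good w) (hw2 : w ^ 2 = -1) (x y z : S K 3)
    (h : x • (sA : Fin 3 → S K 3) + y • sB w + z • sC w = 0) :
    ∃ s, x = s * PP w 2 0 ∧ y = s * (X 0 - X 1) ∧ z = s * (-(X 1 - X 2)) := by
  have h1 : x * (X 1 - X 2) + y * 0 + z * PP w 2 0 = 0 := congrFun h 0
  have h2 : x * (X 2 - X 0) + y * PP w 0 1 + z * (-PP w 1 2) = 0 := congrFun h 1
  have h3 : x * (X 0 - X 1) + y * (-PP w 2 0) + z * 0 = 0 := congrFun h 2
  exact Alg.relations_two (P1 := PP w 1 2) (P2 := PP w 2 0) (P3 := PP w 0 1)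
    (s1 := X 1 - X 2) (s2 := X 2 - X 0) (s3 := X 0 - X 1)
    (PP_ne_zero hw.ne (by decide)) (sA_syz hw2) X12_ne cop13
    (by linear_combination h1) (by linear_combination h2) (by linear_combination h3)

/-- The special case: exponents `(1, 5, 7)` and level `7`. -/
theorem special_resolution {w : K} (hw : Good w) (hw2 : w ^ 2 = -1) :
    IsResolution (arr w) ![1, 5, 7] 7 ![der w 1 0, der w 0 sA, der w 0 (sB w)]
      (der w 0 (sC w)) ![0, PP w 2 0, X 0 - X 1] (-(X 1 - X 2)) := by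
  exact resolution hw (sA_syz hw2) (sB_syz w) (sC_syz w) sA_hom (sB_hom w) (sC_hom w)
    (gen_special hw hw2) (rel_special hw2) (uniq_special hw hw2)
    ((isHomogeneous_X K 1).sub (isHomogeneous_X K 2)).neg (neg_ne_zero.2 X12_ne)
    (k1 := 3) (k2 := 1)
    (PP_homogeneous w 2 0) ((isHomogeneous_X K 0).sub (isHomogeneous_X K 1))
    (by norm_num) one_pos rfl rfl

end Pool.Agent.Q64.POG
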