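import Pool.Agent.Q64.POG.Lat

/-!
# Divisibility by products of three linear forms
-/

set_option autoImplicit false

namespace Pool.Agent.Q64.POG

open MvPolynomial

variable {K : Type} [Field K]

/-- the form `x_i - c x_j` -/
noncomputable def lin (i j : Fin 3) (c : K) : S K 3 := X i - C c * X j

/-- the substitution `x_i = c x_j` -/
noncomputable def rho (i j : Fin 3) (c : K) : S K 3 →ₐ[K] S K 3 :=
  aeval (fun k => if k = i then C c * X j else X k)

lemma rho_self (i j : Fin 3) (c : K) : rho i j c (X i) = C c * X j := by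
  simp [rho]

lemma rho_ne {i k : Fin 3} (j : Fin 3) (c : K) (h : k ≠ i) : rho i j c (X k) = X k := by
  simp [rho, h]

lemma rho_C (i j : Fin 3) (c d : K) : rho i j c (C d) = C d := by
  simp [rho]

lemma rho_lin {i j : Fin 3} (h : i ≠ j) (c d : K) :
    rho i j c (lin i j d) = (C c - C d) * X j := by
  rw [lin, map_sub, map_mul, rho_self, rho_C, rho_ne j c h.symm]
  ring

lemma lin_dvd_iff {i j : Fin 3} (h : i ≠ j) (c : K) (g : S K 3) :
    lin i j c ∣ g ↔ rho i j c g = 0 := by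
  constructor
  · rintro ⟨k, rfl⟩
    rw [map_mul, rho_lin h, sub_self, zero_mul, zero_mul]
  · intro hg
    let I : Ideal (S K 3) := Ideal.span {lin i j c}
    have h1 : (Ideal.Quotient.mkₐ K I).comp (rho i j c) = Ideal.Quotient.mkₐ K I := by
      apply MvPolynomial.algHom_ext
      intro k
      rw [AlgHom.comp_apply]
      by_cases hk : k = i
      · subst hk
        rw [rho_self]
        rw [Ideal.Quotient.mkₐ_eq_mk, Ideal.Quotient.eq]
        rw [Ideal.mem_span_singleton]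
        exact ⟨-1, by rw [lin]; ring⟩
      · rw [rho_ne j c hk]
    have h2 := congrArg (fun f => f g) h1
    simp only [AlgHom.comp_apply, hg, map_zero] at h2
    rw [Ideal.Quotient.mkₐ_eq_mk, eq_comm, Ideal.Quotient.eq_zero_iff_mem,
      Ideal.mem_span_singleton] at h2
    exact h2

lemma lin_ne_zero {i j : Fin 3} (h : i ≠ j) (c : K) : lin i j c ≠ 0 := by
  intro h0
  have h1 := congrArg (rho j i 0) h0
  rw [lin, map_sub, map_mul, rho_self, rho_C, rho_ne i 0 h, map_zero] at h1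
  simp at h1

lemma prod_dvd {i j : Fin 3} (h : i ≠ j) {a b c : K} (hab : a ≠ b) (hac : a ≠ c) (hbc : b ≠ c)
    {g : S K 3} (ha : rho i j a g = 0) (hb : rho i j b g = 0) (hc : rho i j c g = 0) :
    lin i j a * lin i j b * lin i j c ∣ g := by
  have hX : (X j : S K 3) ≠ 0 := X_ne_zero j
  have hsub : ∀ {s t : K}, s ≠ t → (C s - C t : S K 3) ≠ 0 := by
    intro s t hst h0
    rw [sub_eq_zero] at h0
    exact hst (C_injective _ _ h0)
  obtain ⟨g1, rfl⟩ := (lin_dvd_iff h a g).2 ha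
  rw [map_mul, rho_lin h] at hb hc
  have hb' : rho i j b g1 = 0 := by
    rcases mul_eq_zero.1 hb with h0 | h0
    · exact absurd h0 (mul_ne_zero (hsub hab.symm) hX)
    · exact h0
  have hc' : rho i j c g1 = 0 := by
    rcases mul_eq_zero.1 hc with h0 | h0
    · exact absurd h0 (mul_ne_zero (hsub hac.symm) hX)
    · exact h0
  obtain ⟨g2, rfl⟩ := (lin_dvd_iff h b g1).2 hb'
  rw [map_mul, rho_lin h] at hc'
  have hc'' : rho i j c g2 = 0 := by
    rcases mul_eq_zero.1 hc' with h0 | h0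
    · exact absurd h0 (mul_ne_zero (hsub hbc.symm) hX)
    · exact h0
  obtain ⟨g3, rfl⟩ := (lin_dvd_iff h c g2).2 hc''
  exact ⟨g3, by ring⟩

/-- `P i j = (x_i² - w² x_j²) (w² x_i - x_j)`, the product of the forms of three of the planes -/
noncomputable def PP (w : K) (i j : Fin 3) : S K 3 :=
  (X i ^ 2 - C (w ^ 2) * X j ^ 2) * (C (w ^ 2) * X i - X j)

lemma C_mul_inv {w : K} (hw : w ≠ 0) : (C (w ^ 2) * C ((w ^ 2)⁻¹) : S K 3) = 1 := by
  rw [← C_mul, mul_inv_cancel₀ (pow_ne_zero 2 hw), C_1]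

lemma PP_eq {w : K} (hw : w ≠ 0) (i j : Fin 3) :
    PP w i j = C (w ^ 2) * (lin i j w * lin i j (-w) * lin i j ((w ^ 2)⁻¹)) := by
  have h := C_mul_inv hw
  simp only [PP, lin, map_neg]
  have h2 : (C (w ^ 2) : S K 3) = C w * C w := by rw [pow_two, C_mul]
  rw [h2] at h ⊢
  linear_combination (X i ^ 2 - C w * C w * X j ^ 2) * X j * h

/-- the hypotheses on `w` -/
structure Good (w : K) : Prop where
  two : (2 : K) ≠ 0
  ne : w ≠ 0
  six : w ^ 6 ≠ 1

lemma Good.ne_neg {w : K} (h : Good w) : w ≠ -w := by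
  intro h0
  apply mul_ne_zero h.two h.ne
  linear_combination h0

lemma Good.ne_inv {w : K} (h : Good w) : w ≠ (w ^ 2)⁻¹ := by
  intro h0
  have h1 : (w ^ 2)⁻¹ * w ^ 2 = 1 := inv_mul_cancel₀ (pow_ne_zero 2 h.ne)
  rw [← h0] at h1
  apply h.six
  linear_combination (w ^ 3 + 1) * h1

lemma Good.neg_ne_inv {w : K} (h : Good w) : -w ≠ (w ^ 2)⁻¹ := by
  intro h0
  have h1 : (w ^ 2)⁻¹ * w ^ 2 = 1 := inv_mul_cancel₀ (pow_ne_zero 2 h.ne)
  rw [← h0] at h1
  apply h.six
  linear_combination (-w ^ 3 + 1) * h1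

lemma PP_dvd_iff {w : K} (hw : Good w) {i j : Fin 3} (h : i ≠ j) (g : S K 3) :
    PP w i j ∣ g ↔ rho i j w g = 0 ∧ rho i j (-w) g = 0 ∧ rho i j ((w ^ 2)⁻¹) g = 0 := by
  rw [PP_eq hw.ne]
  have hu : IsUnit (C (w ^ 2) : S K 3) := (isUnit_iff_ne_zero.2 (pow_ne_zero 2 hw.ne)).map C
  rw [hu.mul_left_dvd]
  constructor
  · rintro ⟨g, rfl⟩
    simp only [map_mul, rho_lin h, sub_self, zero_mul, mul_zero, and_self]
  · rintro ⟨h1, h2, h3⟩
    exact prod_dvd h hw.ne_neg hw.ne_inv hw.neg_ne_inv h1 h2 h3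

lemma PP_ne_zero {w : K} (hw : w ≠ 0) {i j : Fin 3} (h : i ≠ j) : PP w i j ≠ 0 := by
  rw [PP_eq hw]
  refine mul_ne_zero ?_ (mul_ne_zero (mul_ne_zero (lin_ne_zero h _) (lin_ne_zero h _))
    (lin_ne_zero h _))
  rw [Ne, ← map_zero (C : K →+* S K 3)]
  intro h0
  exact pow_ne_zero 2 hw (C_injective _ _ h0)

/-- coprimality of `P 1 2` and `P 2 0` -/
lemma PP_coprime {w : K} (hw : Good w) (g : S K 3) (h : PP w 1 2 ∣ PP w 2 0 * g) :
    PP w 1 2 ∣ g := by
  have h12 : (1 : Fin 3) ≠ 2 := by decide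
  rw [PP_dvd_iff hw h12] at h ⊢
  have hr : ∀ c : K, rho 1 2 c (PP w 2 0) = PP w 2 0 := by
    intro c
    simp only [PP, map_mul, map_sub, map_pow, rho_C, rho_ne 2 c (show (2 : Fin 3) ≠ 1 by decide),
      rho_ne 2 c (show (0 : Fin 3) ≠ 1 by decide)]
  have hne : PP w 2 0 ≠ 0 := PP_ne_zero hw.ne (by decide)
  simp only [map_mul, hr] at h
  refine ⟨?_, ?_, ?_⟩
  · exact (mul_eq_zero.1 h.1).resolve_left hne
  · exact (mul_eq_zero.1 h.2.1).resolve_left hne
  · exact (mul_eq_zero.1 h.2.2).resolve_left hne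

/-- the conditions on the coefficients `x_i a`, `x_j b` of a derivation -/
lemma pair_iff {w : K} (hw : Good w) {i j : Fin 3} (h : i ≠ j) (a b : S K 3) :
    ((X i - C w * X j : S K 3) ∣ X i * a - C w * (X j * b) ∧
      (X i + C w * X j : S K 3) ∣ X i * a + C w * (X j * b) ∧
      (C (w ^ 2) * X i - X j : S K 3) ∣ C (w ^ 2) * (X i * a) - X j * b) ↔ PP w i j ∣ a - b := by
  have hX : (X j : S K 3) ≠ 0 := X_ne_zero j
  have hCw : (C w : S K 3) ≠ 0 := by
    rw [Ne, ← map_zero (C : K →+* S K 3)]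
    intro h0
    exact hw.ne (C_injective _ _ h0)
  have e1 : (X i - C w * X j : S K 3) = lin i j w := rfl
  have e2 : (X i + C w * X j : S K 3) = lin i j (-w) := by
    rw [lin, map_neg]; ring
  have e3 : (C (w ^ 2) * X i - X j : S K 3) = C (w ^ 2) * lin i j ((w ^ 2)⁻¹) := by
    have := C_mul_inv hw.ne
    rw [lin]
    linear_combination X j * this
  have hu : IsUnit (C (w ^ 2) : S K 3) := (isUnit_iff_ne_zero.2 (pow_ne_zero 2 hw.ne)).map C
  rw [PP_dvd_iff hw h, e1, e2, e3, hu.mul_left_dvd, lin_dvd_iff h, lin_dvd_iff h, lin_dvd_iff h]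
  have hj : j ≠ i := h.symm
  simp only [map_sub, map_add, map_mul, rho_self, rho_C, rho_ne j _ hj]
  have k1 : (C w * X j * rho i j w a - C w * (X j * rho i j w b) = 0) ↔
      rho i j w a - rho i j w b = 0 := by
    have : C w * X j * rho i j w a - C w * (X j * rho i j w b) =
        (C w * X j) * (rho i j w a - rho i j w b) := by ring
    rw [this, mul_eq_zero, or_iff_right (mul_ne_zero hCw hX)]
  have k2 : (C (-w) * X j * rho i j (-w) a + C w * (X j * rho i j (-w) b) = 0) ↔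
      rho i j (-w) a - rho i j (-w) b = 0 := by
    have : C (-w) * X j * rho i j (-w) a + C w * (X j * rho i j (-w) b) =
        (-(C w * X j)) * (rho i j (-w) a - rho i j (-w) b) := by rw [map_neg]; ring
    rw [this, mul_eq_zero, or_iff_right (neg_ne_zero.2 (mul_ne_zero hCw hX))]
  have k3 : (C (w ^ 2) * (C ((w ^ 2)⁻¹) * X j * rho i j ((w ^ 2)⁻¹) a) -
      X j * rho i j ((w ^ 2)⁻¹) b = 0) ↔
      rho i j ((w ^ 2)⁻¹) a - rho i j ((w ^ 2)⁻¹) b = 0 := by
    have : C (w ^ 2) * (C ((w ^ 2)⁻¹) * X j * rho i j ((w ^ 2)⁻¹) a) -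
      X j * rho i j ((w ^ 2)⁻¹) b =
        X j * (rho i j ((w ^ 2)⁻¹) a - rho i j ((w ^ 2)⁻¹) b) := by
      linear_combination X j * rho i j ((w ^ 2)⁻¹) a * C_mul_inv hw.ne
    rw [this, mul_eq_zero, or_iff_right hX]
  rw [k1, k2, k3]

end Pool.Agent.Q64.POG
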