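import Pool.Agent.Q64.POG.Der
import Pool.Agent.Q64.POG.Alg

/-!
# Resolutions of the modules of logarithmic derivations
-/

set_option autoImplicit false

namespace Pool.Agent.Q64.POG

open MvPolynomial

variable {K : Type} [Field K]

lemma constantCoeff_of_homogeneous {f : S K 3} {k : ℕ} (hf : f.IsHomogeneous k) (hk : 0 < k) :
    constantCoeff f = 0 := by
  rw [constantCoeff_eq]
  exact hf.coeff_eq_zero (by simp; omega)

lemma der_combination (w : K) (g x y z : S K 3) (a b c : Fin 3 → S K 3) :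
    der w g (x • a + y • b + z • c) =
      g • der w 1 0 + x • der w 0 a + y • der w 0 b + z • der w 0 c := by
  apply MvPolynomial.derivation_ext
  intro k
  simp only [Derivation.add_apply, Derivation.smul_apply, der_X]
  fin_cases k <;> simp <;> ring

theorem resolution {w : K} (hw : Good w) {a b c : Fin 3 → S K 3} (ha : IsSyz w a)
    (hb : IsSyz w b) (hc : IsSyz w c) {ma mb mc : ℕ} (hma : ∀ k, (a k).IsHomogeneous ma)
    (hmb : ∀ k, (b k).IsHomogeneous mb) (hmc : ∀ k, (c k).IsHomogeneous mc)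
    (gen : ∀ u, IsSyz w u → ∃ x y z : S K 3, u = x • a + y • b + z • c)
    {f1 f2 α : S K 3} (rel : f1 • a + f2 • b + α • c = 0)
    (uniq : ∀ x y z : S K 3, x • a + y • b + z • c = 0 → ∃ s, x = s * f1 ∧ y = s * f2 ∧ z = s * α)
    (hα : α.IsHomogeneous 1) (hα0 : α ≠ 0) {k1 k2 : ℕ} (h1 : f1.IsHomogeneous k1)
    (h2 : f2.IsHomogeneous k2) (hk1 : 0 < k1) (hk2 : 0 < k2) (e1 : ma + k1 = mc + 1)
    (e2 : mb + k2 = mc + 1) :
    IsResolution (arr w) ![1, ma + 4, mb + 4] (mc + 4) ![der w 1 0, der w 0 a, der w 0 b]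
      (der w 0 c) ![0, f1, f2] α := by
  have hE : der w 1 0 ∈ logDer (arr w) := der_mem hw 1 (isSyz_zero w)
  have hA : der w 0 a ∈ logDer (arr w) := der_mem hw 0 ha
  have hB : der w 0 b ∈ logDer (arr w) := der_mem hw 0 hb
  have hC : der w 0 c ∈ logDer (arr w) := der_mem hw 0 hc
  refine ⟨?_, hC, ?_, der_homogeneous w hmc, ?_, ?_, hα, ?_, Or.inr hα0, ?_, ?_⟩
  · intro i
    fin_cases i
    exacts [hE, hA, hB]
  · intro i
    fin_cases i
    exacts [euler_homogeneous w, der_homogeneous w hma, der_homogeneous w hmb]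
  · apply le_antisymm
    · rw [Submodule.span_le]
      rintro θ (⟨i, rfl⟩ | rfl)
      · fin_cases i
        exacts [hE, hA, hB]
      · exact hC
    · intro θ hθ
      obtain ⟨g, u, hu, rfl⟩ := exists_der hw hθ
      obtain ⟨x, y, z, rfl⟩ := gen u hu
      rw [der_combination]
      refine add_mem (add_mem (add_mem ?_ ?_) ?_) ?_
      · exact Submodule.smul_mem _ _ (Submodule.subset_span (Or.inl ⟨0, rfl⟩))
      · exact Submodule.smul_mem _ _ (Submodule.subset_span (Or.inl ⟨1, rfl⟩))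
      · exact Submodule.smul_mem _ _ (Submodule.subset_span (Or.inl ⟨2, rfl⟩))
      · exact Submodule.smul_mem _ _ (Submodule.subset_span (Or.inr rfl))
  · intro i
    fin_cases i
    · intro h; exact absurd rfl h
    · intro _
      exact ⟨k1, by show ma + 4 + k1 = mc + 4 + 1; omega, h1⟩
    · intro _
      exact ⟨k2, by show mb + 4 + k2 = mc + 4 + 1; omega, h2⟩
  · rw [Fin.sum_univ_three]
    show (0 : S K 3) • der w 1 0 + f1 • der w 0 a + f2 • der w 0 b + α • der w 0 c = 0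
    rw [← der_combination, rel]
    apply MvPolynomial.derivation_ext
    intro k
    rw [der_X]
    fin_cases k <;> simp
  · intro g h hg
    rw [Fin.sum_univ_three] at hg
    have hg' : der w (g 0) (g 1 • a + g 2 • b + h • c) = 0 := by
      rw [der_combination]
      exact hg
    have hsyz : IsSyz w (g 1 • a + g 2 • b + h • c) := by
      unfold IsSyz at ha hb hc ⊢
      simp only [Pi.add_apply, Pi.smul_apply, smul_eq_mul]
      linear_combination g 1 * ha + g 2 * hb + h * hc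
    obtain ⟨z1, z2⟩ := der_eq_zero hw.ne hsyz hg'
    obtain ⟨s, s1, s2, s3⟩ := uniq _ _ _ z2
    refine ⟨s, ?_, s3⟩
    intro i
    fin_cases i
    · show g 0 = s * 0
      rw [z1, mul_zero]
    · exact s1
    · exact s2
  · intro i
    fin_cases i
    · simp
    · exact constantCoeff_of_homogeneous h1 hk1
    · exact constantCoeff_of_homogeneous h2 hk2

/-! ### The generic case -/

section generic

/-- the first syzygy of degree two -/
noncomputable def nA (w : K) : Fin 3 → S K 3 :=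
  ![C (w ^ 2) * X 0 * X 1 + X 0 * X 2 - C (w ^ 2) ^ 2 * X 1 * X 2 - C (w ^ 2) * X 2 ^ 2,
    C (w ^ 2) ^ 2 * X 0 ^ 2 - (C (w ^ 2) ^ 3 + 1) * X 1 ^ 2 + C (w ^ 2) * X 2 ^ 2,
    -C (w ^ 2) ^ 2 * X 0 ^ 2 - C (w ^ 2) * X 0 * X 1 + C (w ^ 2) ^ 3 * X 0 * X 2 +
      C (w ^ 2) ^ 2 * X 1 * X 2]

/-- the second syzygy of degree two -/
noncomputable def nB (w : K) : Fin 3 → S K 3 :=
  ![-C (w ^ 2) ^ 2 * X 1 ^ 2 - C (w ^ 2) * X 1 * X 2 + C (w ^ 2) ^ 3 * X 1 * X 0 +
      C (w ^ 2) ^ 2 * X 2 * X 0,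
    C (w ^ 2) * X 1 * X 2 + X 1 * X 0 - C (w ^ 2) ^ 2 * X 2 * X 0 - C (w ^ 2) * X 0 ^ 2,
    C (w ^ 2) ^ 2 * X 1 ^ 2 - (C (w ^ 2) ^ 3 + 1) * X 2 ^ 2 + C (w ^ 2) * X 0 ^ 2]

/-- the third syzygy of degree two -/
noncomputable def nC (w : K) : Fin 3 → S K 3 :=
  ![C (w ^ 2) ^ 2 * X 2 ^ 2 - (C (w ^ 2) ^ 3 + 1) * X 0 ^ 2 + C (w ^ 2) * X 1 ^ 2,
    -C (w ^ 2) ^ 2 * X 2 ^ 2 - C (w ^ 2) * X 2 * X 0 + C (w ^ 2) ^ 3 * X 2 * X 1 +
      C (w ^ 2) ^ 2 * X 0 * X 1,
    C (w ^ 2) * X 2 * X 0 + X 2 * X 1 - C (w ^ 2) ^ 2 * X 0 * X 1 - C (w ^ 2) * X 1 ^ 2]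

lemma nA_syz (w : K) : IsSyz w (nA w) := by
  unfold IsSyz nA PP
  simp only [Matrix.cons_val_zero, Matrix.cons_val_one, Matrix.cons_val]
  ring

lemma nB_syz (w : K) : IsSyz w (nB w) := by
  unfold IsSyz nB PP
  simp only [Matrix.cons_val_zero, Matrix.cons_val_one, Matrix.cons_val]
  ring

lemma nC_syz (w : K) : IsSyz w (nC w) := by
  unfold IsSyz nC PP
  simp only [Matrix.cons_val_zero, Matrix.cons_val_one, Matrix.cons_val]
  ring

/-- the coefficients of the relation -/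
noncomputable def qA (w : K) : S K 3 := X 0 + C (w ^ 2) * X 2

/-- the coefficients of the relation -/
noncomputable def qB (w : K) : S K 3 := C (w ^ 2) * X 0 + X 1

/-- the coefficients of the relation -/
noncomputable def qC (w : K) : S K 3 := C (w ^ 2) * X 1 + X 2

lemma qA_eq (w : K) : qA w = lin 0 2 (-(w ^ 2)) := by
  rw [qA, lin, map_neg]
  ring

lemma q_coprime (w : K) (g : S K 3) (h : qA w ∣ qB w * g) : qA w ∣ g := by
  have h02 : (0 : Fin 3) ≠ 2 := by decide
  rw [qA_eq, lin_dvd_iff h02] at h ⊢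
  rw [map_mul] at h
  refine (mul_eq_zero.1 h).resolve_left ?_
  intro h0
  have h1 : rho 0 2 (-(w ^ 2)) (qB w) = C (w ^ 2) * (C (-(w ^ 2)) * X 2) + X 1 := by
    rw [qB, map_add, map_mul, rho_C, rho_self, rho_ne 2 _ (show (1 : Fin 3) ≠ 0 by decide)]
  rw [h1] at h0
  have h2 := congrArg (MvPolynomial.eval ![0, 1, 0]) h0
  simp at h2

/-- the substitution `(x, y, z) = (-p z, p² z, z)` -/
noncomputable def sig (w : K) : S K 3 →ₐ[K] S K 3 :=
  aeval ![-(C (w ^ 2) * X 2), C (w ^ 2) ^ 2 * X 2, X 2]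

lemma sig_X (w : K) (k : Fin 3) :
    sig w (X k) = ![-(C (w ^ 2) * X 2), C (w ^ 2) ^ 2 * X 2, X 2] k := by
  simp [sig]

lemma sig_C (w c : K) : sig w (C c) = C c := by simp [sig]

lemma mem_of_sig {w : K} {h : S K 3} (hh : sig w h = 0) : ∃ a b, h = qA w * a + qB w * b := by
  let I : Ideal (S K 3) := Ideal.span {qA w, qB w}
  have hA : qA w ∈ I := Ideal.subset_span (by simp)
  have hB : qB w ∈ I := Ideal.subset_span (by simp)
  have h1 : (Ideal.Quotient.mkₐ K I).comp (sig w) = Ideal.Quotient.mkₐ K I := by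
    apply MvPolynomial.algHom_ext
    intro k
    rw [AlgHom.comp_apply, sig_X, Ideal.Quotient.mkₐ_eq_mk, Ideal.Quotient.eq]
    fin_cases k
    · show -(C (w ^ 2) * X 2) - X 0 ∈ I
      have : (-(C (w ^ 2) * X 2) - X 0 : S K 3) = (-1) * qA w := by rw [qA]; ring
      rw [this]
      exact I.mul_mem_left _ hA
    · show C (w ^ 2) ^ 2 * X 2 - X 1 ∈ I
      have : (C (w ^ 2) ^ 2 * X 2 - X 1 : S K 3) = C (w ^ 2) * qA w + (-1) * qB w := by
        rw [qA, qB]; ring
      rw [this]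
      exact I.add_mem (I.mul_mem_left _ hA) (I.mul_mem_left _ hB)
    · show X 2 - X 2 ∈ I
      rw [sub_self]
      exact I.zero_mem
  have h2 := congrArg (fun f => f h) h1
  simp only [AlgHom.comp_apply, hh, map_zero] at h2
  rw [Ideal.Quotient.mkₐ_eq_mk, eq_comm, Ideal.Quotient.eq_zero_iff_mem,
    Ideal.mem_span_pair] at h2
  obtain ⟨a, b, hab⟩ := h2
  exact ⟨a, b, by rw [← hab]; ring⟩

lemma C_ne_zero' {c : K} (hc : c ≠ 0) : (C c : S K 3) ≠ 0 := by
  rw [Ne, ← map_zero (C : K →+* S K 3)]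
  intro h0
  exact hc (C_injective _ _ h0)

lemma q_koszul {w : K} (hw6 : w ^ 6 + 1 ≠ 0) (h1 h2 h3 : S K 3)
    (h : qA w * h1 + qB w * h2 + qC w * h3 = 0) : ∃ a b, h3 = qA w * a + qB w * b := by
  apply mem_of_sig
  have e := congrArg (sig w) h
  simp only [map_add, map_mul, map_zero] at e
  have eA : sig w (qA w) = 0 := by
    rw [qA, map_add, map_mul, sig_C, sig_X, sig_X]
    simp
  have eB : sig w (qB w) = 0 := by
    rw [qB, map_add, map_mul, sig_C, sig_X, sig_X]
    simp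
    ring
  have eC : sig w (qC w) = C (w ^ 6 + 1) * X 2 := by
    rw [qC, map_add, map_mul, sig_C, sig_X, sig_X]
    simp
    ring
  rw [eA, eB, eC, zero_mul, zero_mul, zero_add, zero_add] at e
  exact (mul_eq_zero.1 e).resolve_left (mul_ne_zero (C_ne_zero' hw6) (X_ne_zero 2))

lemma qA_ne (w : K) : qA w ≠ 0 := by
  rw [qA_eq]
  exact lin_ne_zero (by decide) _

lemma qC_ne (w : K) : qC w ≠ 0 := by
  intro h
  have h2 := congrArg (MvPolynomial.eval ![0, 0, 1]) h
  simp [qC] at h2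

/-- the constant -/
noncomputable def kap (w : K) : S K 3 := -(C (w ^ 2) ^ 3 + 1)

lemma kap_unit {w : K} (hw6 : w ^ 6 + 1 ≠ 0) : IsUnit (kap w : S K 3) := by
  have : (kap w : S K 3) = C (-(w ^ 6 + 1)) := by
    rw [kap]
    simp only [map_neg, map_add, map_pow, map_one]
    ring
  rw [this]
  exact (isUnit_iff_ne_zero.2 (neg_ne_zero.2 hw6)).map C

lemma gen_generic {w : K} (hw : Good w) (hw6 : w ^ 6 + 1 ≠ 0) (u : Fin 3 → S K 3)
    (hu : IsSyz w u) : ∃ x y z : S K 3, u = x • nA w + y • nB w + z • nC w := by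
  obtain ⟨x, y, z, h1, h2, h3⟩ := Alg.generate_three (P1 := PP w 1 2) (P2 := PP w 2 0)
    (P3 := PP w 0 1) (PP_ne_zero hw.ne (by decide)) (PP_coprime hw) (kap_unit hw6) (qA_ne w)
    (qC_ne w) (q_coprime w) (q_koszul hw6) (nA_syz w) (nB_syz w) (nC_syz w)
    (by simp only [nA, nB, nC, PP, kap, qA, qB, qC, Matrix.cons_val_zero, Matrix.cons_val_one, Matrix.cons_val]; ring)
    (by simp only [nA, nB, nC, PP, kap, qA, qB, qC, Matrix.cons_val_zero, Matrix.cons_val_one, Matrix.cons_val]; ring)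
    (by simp only [nA, nB, nC, PP, kap, qA, qB, qC, Matrix.cons_val_zero, Matrix.cons_val_one, Matrix.cons_val]; ring)
    (by simp only [nA, nB, nC, PP, kap, qA, qB, qC, Matrix.cons_val_zero, Matrix.cons_val_one, Matrix.cons_val]; ring)
    (by simp only [nA, nB, nC, PP, kap, qA, qB, qC, Matrix.cons_val_zero, Matrix.cons_val_one, Matrix.cons_val]; ring)
    (by simp only [nA, nB, nC, PP, kap, qA, qB, qC, Matrix.cons_val_zero, Matrix.cons_val_one, Matrix.cons_val]; ring)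
    (by simp only [nA, nB, nC, PP, kap, qA, qB, qC, Matrix.cons_val_zero, Matrix.cons_val_one, Matrix.cons_val]; ring)
    (by simp only [nA, nB, nC, PP, kap, qA, qB, qC, Matrix.cons_val_zero, Matrix.cons_val_one, Matrix.cons_val]; ring)
    (by simp only [nA, nB, nC, PP, kap, qA, qB, qC, Matrix.cons_val_zero, Matrix.cons_val_one, Matrix.cons_val]; ring)
    (by simp only [nA, nB, nC, PP, kap, qA, qB, qC, Matrix.cons_val_zero, Matrix.cons_val_one, Matrix.cons_val]; ring)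
    (by simp only [nA, nB, nC, PP, kap, qA, qB, qC, Matrix.cons_val_zero, Matrix.cons_val_one, Matrix.cons_val]; ring)
    (by simp only [nA, nB, nC, PP, kap, qA, qB, qC, Matrix.cons_val_zero, Matrix.cons_val_one, Matrix.cons_val]; ring)
    hu
  refine ⟨x, y, z, ?_⟩
  funext k
  fin_cases k
  exacts [h1, h2, h3]

lemma rel_generic (w : K) : qA w • nA w + qB w • nB w + qC w • nC w = 0 := by
  funext k
  fin_cases k <;> simp [nA, nB, nC, qA, qB, qC] <;> ring

lemma uniq_generic {w : K} (hw : Good w) (hw6 : w ^ 6 + 1 ≠ 0) (x y z : S K 3)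
    (h : x • nA w + y • nB w + z • nC w = 0) :
    ∃ s, x = s * qA w ∧ y = s * qB w ∧ z = s * qC w := by
  have h2 := congrFun h 1
  have h3 := congrFun h 2
  simp only [Pi.add_apply, Pi.smul_apply, smul_eq_mul, Pi.zero_apply] at h2 h3
  exact Alg.relations_three (P1 := PP w 1 2) (a1 := 0) (b1 := 0) (c1 := 0)
    (P2 := 0) (P3 := 0) (PP_ne_zero hw.ne (by decide)) (kap_unit hw6) (qA_ne w)
    (q_coprime w)
    (by simp only [nA, nB, nC, PP, kap, qA, qB, qC, Matrix.cons_val_zero, Matrix.cons_val_one, Matrix.cons_val]; ring)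
    (by simp only [nA, nB, nC, PP, kap, qA, qB, qC, Matrix.cons_val_zero, Matrix.cons_val_one, Matrix.cons_val]; ring)
    (by simp only [nA, nB, nC, PP, kap, qA, qB, qC, Matrix.cons_val_zero, Matrix.cons_val_one, Matrix.cons_val]; ring)
    h2 h3

end generic

end Pool.Agent.Q64.POG
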