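import Pool.Agent.Q64.POG.Main

/-!
# The exponents of a plus-one generated arrangement of generic type
-/

set_option autoImplicit false

namespace Pool.Agent.Q64.POG

open MvPolynomial

variable {K : Type} [Field K]

/-- all monomials of `f` have degree at least `m` -/
def Low (m : ℕ) (f : S K 3) : Prop := ∀ s : Fin 3 →₀ ℕ, s.degree < m → coeff s f = 0

lemma Low.add {m : ℕ} {f g : S K 3} (hf : Low m f) (hg : Low m g) : Low m (f + g) := by
  intro s hs
  rw [coeff_add, hf s hs, hg s hs, add_zero]

lemma Low.mul {m : ℕ} {f : S K 3} (hf : Low m f) (r : S K 3) : Low m (r * f) := by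
  classical
  intro s hs
  rw [coeff_mul]
  refine Finset.sum_eq_zero fun p hp => ?_
  rw [hf p.2, mul_zero]
  rw [Finset.HasAntidiagonal.mem_antidiagonal] at hp
  rw [← hp, map_add] at hs
  omega

lemma low_of_homogeneous {m k : ℕ} {f : S K 3} (hf : f.IsHomogeneous k) (h : m ≤ k) : Low m f := by
  intro s hs
  exact hf.coeff_eq_zero (by omega)

lemma low_zero (m : ℕ) : Low m (0 : S K 3) := fun s _ => by simp

lemma low_sum {ι : Type} [Fintype ι] {m : ℕ} {f : ι → S K 3} (h : ∀ i, Low m (f i)) :
    Low m (∑ i, f i) := by
  intro s hs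
  rw [coeff_sum]
  exact Finset.sum_eq_zero fun i _ => h i s hs

lemma eq_zero_of_low {m k : ℕ} {f : S K 3} (hf : f.IsHomogeneous k) (hk : k < m) (h : Low m f) :
    f = 0 := by
  ext s
  rw [coeff_zero]
  by_cases hs : s.degree = k
  · exact h s (by omega)
  · exact hf.coeff_eq_zero hs

/-- Homogeneous logarithmic derivations of degree at most five are multiples of the Euler
derivation, in the generic case. -/
lemma low_degree {w : K} (hw : Good w) (hw6 : w ^ 6 ≠ -1) {θ : Derivation K (S K 3) (S K 3)}
    (hθ : θ ∈ logDer (arr w)) {m : ℕ} (hm : m ≤ 5) (hh : IsHomogeneousDer θ m) :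
    ∃ g : S K 3, (m = 0 → g = 0) ∧ (∀ k, 1 + k = m → g.IsHomogeneous k) ∧ θ = g • der w 1 0 := by
  have h6 : w ^ 6 + 1 ≠ 0 := fun h => hw6 (by linear_combination h)
  obtain ⟨c, u, hu, rfl⟩ := exists_der hw hθ
  obtain ⟨x, y, z, rfl⟩ := gen_generic hw h6 u hu
  have hE : ∀ k, der w 1 0 (X k) = X k := by
    intro k
    rw [der_X]
    fin_cases k <;> simp
  -- the remainder
  have hrem : ∀ k, Low 6 (der w c (x • nA w + y • nB w + z • nC w) (X k) - c * X k) := by
    intro k
    rw [der_combination]
    simp only [Derivation.add_apply, Derivation.smul_apply, smul_eq_mul, hE]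
    have e1 := (low_of_homogeneous (der_homogeneous w (nA_hom w) k) (le_refl 6)).mul x
    have e2 := (low_of_homogeneous (der_homogeneous w (nB_hom w) k) (le_refl 6)).mul y
    have e3 := (low_of_homogeneous (der_homogeneous w (nC_hom w) k) (le_refl 6)).mul z
    have e := (e1.add e2).add e3
    convert e using 1
    ring
  set D := der w c (x • nA w + y • nB w + z • nC w) with hD
  cases m with
  | zero =>
    refine ⟨0, fun _ => rfl, fun k hk => by omega, ?_⟩
    apply MvPolynomial.derivation_ext
    intro k
    rw [zero_smul]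
    show D (X k) = 0
    have hk : X k ∣ D (X k) := by
      have h1 := (mem_logDer_rows w D).1 (by rw [hD]; exact hθ)
      fin_cases k
      exacts [h1.1, h1.2.1, h1.2.2.1]
    obtain ⟨q, hq⟩ := hk
    have h2 := hh k
    by_contra hne
    have h3 : constantCoeff (D (X k)) = 0 := by
      rw [hq, map_mul, constantCoeff_X, zero_mul]
    have h4 : D (X k) = C (constantCoeff (D (X k))) := by
      have := ((totalDegree_zero_iff_isHomogeneous _).2 h2)
      rw [constantCoeff_eq]
      exact (totalDegree_eq_zero_iff_eq_C.1 this)
    rw [h3, map_zero] at h4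
    exact hne h4
  | succ m =>
    refine ⟨homogeneousComponent m c, fun h => by omega, fun k hk => ?_, ?_⟩
    · have : k = m := by omega
      subst this
      exact homogeneousComponent_isHomogeneous _ _
    · apply MvPolynomial.derivation_ext
      intro k
      rw [Derivation.smul_apply, hE, smul_eq_mul]
      rw [← sub_eq_zero]
      have h1 : (D (X k) - homogeneousComponent m c * X k).IsHomogeneous (m + 1) :=
        (hh k).sub ((homogeneousComponent_isHomogeneous m c).mul (isHomogeneous_X K k))
      ext s
      rw [coeff_zero]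
      by_cases hs : s.degree = m + 1
      · have h2 := hrem k s (by omega)
        rw [coeff_sub] at h2 ⊢
        have h3 : coeff s (c * X k) = coeff s (homogeneousComponent m c * X k) := by
          classical
          rw [coeff_mul_X', coeff_mul_X']
          split_ifs with hks
          · rw [coeff_homogeneousComponent, if_pos]
            have h4 : s = (s - Finsupp.single k 1) + Finsupp.single k 1 := by
              rw [tsub_add_cancel_of_le]
              rw [Finsupp.single_le_iff]
              rw [Finsupp.mem_support_iff] at hks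
              omega
            have h5 := congrArg Finsupp.degree h4
            rw [map_add, Finsupp.degree_single] at h5
            omega
          · rfl
        rw [← h3]
        exact h2
      · exact h1.coeff_eq_zero hs

lemma comb_apply (g : Fin 3 → S K 3) (θ : Fin 3 → Derivation K (S K 3) (S K 3)) (h : S K 3)
    (φ : Derivation K (S K 3) (S K 3)) (x : S K 3) :
    (∑ i, g i • θ i + h • φ) x = ∑ i, g i * θ i x + h * φ x := by
  rw [Derivation.add_apply, Derivation.smul_apply, smul_eq_mul]
  congr 1

lemma comb_eq_zero {g : Fin 3 → S K 3} {θ : Fin 3 → Derivation K (S K 3) (S K 3)} {h : S K 3}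
    {φ : Derivation K (S K 3) (S K 3)} (H : ∀ x, ∑ i, g i * θ i x + h * φ x = 0) :
    ∑ i, g i • θ i + h • φ = 0 := by
  apply Derivation.ext
  intro x
  rw [comb_apply, H]
  rfl

/-- In the generic case the generators of degree at most five of a resolution: there is exactly one,
and it has degree one. -/
lemma exponents {w : K} (hw : Good w) (hw6 : w ^ 6 ≠ -1) {e : Fin 3 → ℕ} {d : ℕ}
    (h : IsPlusOneGenerated (arr w) e d) (i j : Fin 3) (hij : i ≠ j) : ¬ (e i ≤ 5 ∧ e j ≤ 5) := by
  classical
  obtain ⟨θ, φ, f, α, hR⟩ := h
  rintro ⟨hi, hj⟩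
  have hE : ∀ k, der w 1 0 (X k) = X k := by
    intro k
    rw [der_X]
    fin_cases k <;> simp
  -- no generator is a multiple of another one
  have hα0 : constantCoeff α = 0 := constantCoeff_of_homogeneous hR.degree_last one_pos
  have no1 : ∀ (a : Fin 3) (g : Fin 3 → S K 3) (h : S K 3), g a = 1 →
      ∑ i, g i • θ i + h • φ ≠ 0 := by
    intro a g h hga h0
    obtain ⟨s, hs, -⟩ := hR.unique g h h0
    have := hs a
    rw [hga] at this
    have h1 := congrArg constantCoeff this
    rw [map_one, map_mul, hR.minimal a, mul_zero] at h1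
    exact one_ne_zero h1
  have no2 : ∀ (g : Fin 3 → S K 3), ∑ i, g i • θ i + (1 : S K 3) • φ ≠ 0 := by
    intro g h0
    obtain ⟨s, -, hs⟩ := hR.unique g 1 h0
    have h1 := congrArg constantCoeff hs
    rw [map_one, map_mul, hα0, mul_zero] at h1
    exact one_ne_zero h1
  obtain ⟨gi, gi0, gi1, hgi⟩ := low_degree hw hw6 (hR.mem i) hi (hR.homogeneous i)
  obtain ⟨gj, gj0, gj1, hgj⟩ := low_degree hw hw6 (hR.mem j) hj (hR.homogeneous j)
  -- some generator is a unit times the Euler derivation
  have hEul : der w 1 0 ∈ logDer (arr w) := der_mem hw 1 (isSyz_zero w)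
  rw [← hR.generate, Submodule.span_union, Submodule.mem_sup] at hEul
  obtain ⟨a, ha, b, hb, hab⟩ := hEul
  obtain ⟨r, hr⟩ := (Submodule.mem_span_range_iff_exists_fun _).1 ha
  obtain ⟨t, ht⟩ := Submodule.mem_span_singleton.1 hb
  have hsum : ∑ i, r i • θ i + t • φ = der w 1 0 := by rw [hr, ht, hab]
  have key : ∀ {η : Derivation K (S K 3) (S K 3)} {m : ℕ}, η ∈ logDer (arr w) →
      IsHomogeneousDer η m → η ≠ 0 → (∀ k c : K, True) →
      (∃ c : K, c ≠ 0 ∧ η = (C c : S K 3) • der w 1 0) ∨ ∀ k, Low 2 (η (X k)) := by
    intro η m hη hh hne _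
    by_cases hm : 2 ≤ m
    · right
      intro k
      exact low_of_homogeneous (hh k) hm
    · left
      obtain ⟨g, g0, g1, hg⟩ := low_degree hw hw6 hη (by omega) hh
      have hm1 : m = 1 := by
        rcases Nat.lt_or_ge m 1 with h1 | h1
        · exfalso
          apply hne
          rw [hg, g0 (by omega), zero_smul]
        · omega
      have h0 := g1 0 (by omega)
      have h4 : g = C (constantCoeff g) := by
        have := ((totalDegree_zero_iff_isHomogeneous _).2 h0)
        rw [constantCoeff_eq]
        exact (totalDegree_eq_zero_iff_eq_C.1 this)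
      refine ⟨constantCoeff g, ?_, by rw [← h4]; exact hg⟩
      intro h5
      apply hne
      rw [hg, h4, h5, map_zero, zero_smul]
  have hne : ∀ a, θ a ≠ 0 := by
    intro a h0
    apply no1 a (Pi.single a 1) 0 (by simp)
    rw [zero_smul, add_zero]
    rw [Finset.sum_eq_single a]
    · rw [h0, smul_zero]
    · intro b _ hb
      rw [Pi.single_eq_of_ne hb, zero_smul]
    · simp
  have hneφ : φ ≠ 0 := by
    intro h0
    apply no2 0
    simp [h0]
  by_cases hall : ∃ c : K, c ≠ 0 ∧ ((∃ a, θ a = (C c : S K 3) • der w 1 0) ∨
      φ = (C c : S K 3) • der w 1 0)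
  · obtain ⟨c, hc, hcase⟩ := hall
    have hinv : (C (c⁻¹) * C c : S K 3) = 1 := by
      rw [← C_mul, inv_mul_cancel₀ hc, C_1]
    rcases hcase with ⟨a, ha⟩ | hφ
    · -- one of `i`, `j` is different from `a`
      have main : ∀ (k : Fin 3) (g : S K 3), k ≠ a → θ k = g • der w 1 0 → False := by
        intro k g hka hk
        apply no1 k (Pi.single k 1 - Pi.single a (g * C (c⁻¹))) 0
        · rw [Pi.sub_apply, Pi.single_eq_same, Pi.single_eq_of_ne hka, sub_zero]
        · apply comb_eq_zero
          intro x
          rw [zero_mul, add_zero]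
          simp only [Pi.sub_apply, sub_mul, Finset.sum_sub_distrib]
          rw [Finset.sum_eq_single k, Finset.sum_eq_single a]
          · rw [Pi.single_eq_same, Pi.single_eq_same, ha, hk, Derivation.smul_apply,
              Derivation.smul_apply, smul_eq_mul, smul_eq_mul]
            linear_combination (-(g * der w 1 0 x)) * hinv
          · intro b _ hb
            rw [Pi.single_eq_of_ne hb, zero_mul]
          · simp
          · intro b _ hb
            rw [Pi.single_eq_of_ne hb, zero_mul]
          · simp
      by_cases hia : i = a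
      · exact main j gj (by rw [← hia]; exact hij.symm) hgj
      · exact main i gi hia hgi
    · apply no1 i (Pi.single i 1) (-(gi * C (c⁻¹)))
      · simp
      · apply comb_eq_zero
        intro x
        rw [Finset.sum_eq_single i]
        · rw [Pi.single_eq_same, hgi, hφ, Derivation.smul_apply,
            Derivation.smul_apply, smul_eq_mul, smul_eq_mul]
          linear_combination (-(gi * der w 1 0 x)) * hinv
        · intro b _ hb
          rw [Pi.single_eq_of_ne hb, zero_mul]
        · simp
  · -- otherwise the Euler derivation is not in the span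
    push Not at hall
    have lθ : ∀ a k, Low 2 (θ a (X k)) := by
      intro a
      rcases key (hR.mem a) (hR.homogeneous a) (hne a) (fun _ _ => trivial) with ⟨c, hc, h1⟩ | h1
      · exact absurd h1 ((hall c hc).1 a)
      · exact h1
    have lφ : ∀ k, Low 2 (φ (X k)) := by
      rcases key hR.mem_last hR.homogeneous_last hneφ (fun _ _ => trivial) with ⟨c, hc, h1⟩ | h1
      · exact absurd h1 (hall c hc).2
      · exact h1
    have h1 : Low 2 (der w 1 0 (X 0)) := by
      rw [← hsum]
      rw [comb_apply]
      exact (low_sum fun i => (lθ i 0).mul (r i)).add ((lφ 0).mul t)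
    rw [hE] at h1
    exact X_ne_zero (R := K) (0 : Fin 3) (eq_zero_of_low (isHomogeneous_X K 0) (by norm_num) h1)

end Pool.Agent.Q64.POG
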